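import Pool.Agent.Work.MP_88b7aa_gt.Kc.Cel
import Pool.Agent.Work.MP_88b7aa_gt.PQ.SysQ

/-!
# Template A, p = 12
-/

set_option autoImplicit false

namespace Pool.Agent.Work.MP_88b7aa_gt.Kc

open Pool.Agent.Work.MP_88b7aa_gt.CH
open Pool.Agent.Work.MP_88b7aa_gt.PQ
open ComplexConjugate Complex Matrix

/-- The template `TA12`. -/
def TA12 : Tm where
  fes d := [TFE 0 1 2 (d.e.getD 0 (.cst 0 0)) (d.e.getD 1 (.cst 0 0)) (d.e.getD 2 (.cst 0 0)) (d.e.getD 3 (.cst 0 0)),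
    d.c.getD 0 .gram,
    d.c.getD 1 .gram,
    d.c.getD 2 .gram,
    d.c.getD 3 .gram,
    d.c.getD 4 .gram,
    d.c.getD 5 .gram,
    d.c.getD 6 .gram,
    d.c.getD 7 .gram,
    d.c.getD 8 .gram,
    d.c.getD 9 .gram,
    d.c.getD 10 .gram,
    d.c.getD 11 .gram,
    d.c.getD 12 .gram,
    d.c.getD 13 .gram,
    d.c.getD 14 .gram,
    FEV 0 1 (d.f.getD 0 (.cst 0 0)) (ngS (DpS (.par (cpar 0 1)) 2)) (ngS (DpS (.par (cpar 0 1)) 3)),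
    FEV 0 1 (d.f.getD 0 (.cst 0 0)) (ngS (DpS (.par (cpar 0 1)) 3)) (ngS (DpS (.par (cpar 0 1)) 2)),
    FEV 0 1 (d.f.getD 0 (.cst 0 0)) (DpS (.par (cpar 0 1)) 4) (DpS (.par (cpar 0 1)) 3),
    FEV 0 1 (d.f.getD 0 (.cst 0 0)) (DpS (.par (cpar 0 1)) 3) (DpS (.par (cpar 0 1)) 4),
    FEV 2 0 (d.f.getD 1 (.cst 0 0)) (ngS (DpS (.par (cpar 2 0)) 2)) (ngS (DpS (.par (cpar 2 0)) 3)),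
    FEV 2 0 (d.f.getD 1 (.cst 0 0)) (ngS (DpS (.par (cpar 2 0)) 3)) (ngS (DpS (.par (cpar 2 0)) 2)),
    FEV 2 0 (d.f.getD 1 (.cst 0 0)) (DpS (.par (cpar 2 0)) 4) (DpS (.par (cpar 2 0)) 3),
    FEV 2 0 (d.f.getD 1 (.cst 0 0)) (DpS (.par (cpar 2 0)) 3) (DpS (.par (cpar 2 0)) 4),
    .word 2 1 2 (TFE 0 1 2 (d.e.getD 0 (.cst 0 0)) (d.e.getD 1 (.cst 0 0)) (d.e.getD 2 (.cst 0 0)) (d.e.getD 3 (.cst 0 0))),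
    .word 2 1 2 (d.c.getD 0 .gram),
    .word 2 1 2 (d.c.getD 1 .gram),
    .word 2 1 2 (d.c.getD 14 .gram),
    .word 2 1 10 (TFE 0 1 2 (d.e.getD 0 (.cst 0 0)) (d.e.getD 1 (.cst 0 0)) (d.e.getD 2 (.cst 0 0)) (d.e.getD 3 (.cst 0 0))),
    .word 2 1 10 (d.c.getD 3 .gram),
    .word 1 2 11 (TFE 0 1 2 (d.e.getD 0 (.cst 0 0)) (d.e.getD 1 (.cst 0 0)) (d.e.getD 2 (.cst 0 0)) (d.e.getD 3 (.cst 0 0))),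
    .word 1 2 11 (d.c.getD 3 .gram),
    .word 1 2 2 (TFE 0 1 2 (d.e.getD 0 (.cst 0 0)) (d.e.getD 1 (.cst 0 0)) (d.e.getD 2 (.cst 0 0)) (d.e.getD 3 (.cst 0 0))),
    .word 1 2 2 (d.c.getD 1 .gram),
    .word 1 2 2 (d.c.getD 0 .gram),
    .word 1 2 2 (d.c.getD 14 .gram),
    .word 1 2 10 (TFE 0 1 2 (d.e.getD 0 (.cst 0 0)) (d.e.getD 1 (.cst 0 0)) (d.e.getD 2 (.cst 0 0)) (d.e.getD 3 (.cst 0 0))),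
    .word 1 2 10 (d.c.getD 3 .gram),
    .word 2 1 11 (TFE 0 1 2 (d.e.getD 0 (.cst 0 0)) (d.e.getD 1 (.cst 0 0)) (d.e.getD 2 (.cst 0 0)) (d.e.getD 3 (.cst 0 0))),
    .word 2 1 11 (d.c.getD 3 .gram)]
  is := [.form 0, .comp 0 0, .word 0 1 2 1, .word 0 2 2 2, .comp 1 3, .word 1 2 2 4, .word 1 2 3 5, .word 1 2 4 6, .word 1 2 12 7, .comp 2 8, .word 2 1 2 9, .word 2 1 3 10, .word 2 1 4 11, .word 2 1 12 12, .form 1, .comp 0 0, .word 1 2 12 1, .word 2 1 12 2, .form 2, .comp 0 0, .word 1 2 12 1, .word 2 1 12 2, .form 3, .word 0 1 2 0, .word 0 1 3 1, .word 0 1 4 2, .word 0 1 5 3, .word 0 1 6 4, .word 0 2 2 5, .word 0 2 3 6, .word 0 2 4 7, .word 0 2 5 8, .word 0 2 6 9, .word 1 2 12 10, .word 2 1 12 11, .form 4, .comp 1 0, .word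 1 2 2 1, .word 1 2 3 2, .word 1 2 4 3, .comp 2 4, .word 2 1 2 5, .word 2 1 3 6, .word 2 1 4 7, .form 5, .comp 0 0, .word 0 2 2 1, .word 0 2 3 2, .comp 2 3, .word 2 0 2 4, .word 2 0 3 5, .form 6, .comp 0 0, .word 0 1 2 1, .word 0 1 3 2, .comp 1 3, .word 1 0 2 4, .word 1 0 3 5, .form 7, .comp 0 0, .comp 1 1, .word 1 0 2 2, .comp 2 3, .form 8, .comp 0 0, .comp 1 1, .comp 2 2, .word 2 0 2 3, .form 9, .comp 0 0, .word 1 0 2 1, .word 1 0 3 2, .word 1 0 4 3, .word 1 0 5 4, .word 1 0 6 5, .word 1 2 2 6, .word 1 2 3 7, .word 1 2 4 8, .word 1 2 5 9, .word 1 2 6 10, .word 1 2 7 11, .word 1 2 8 12, .word 1 2 9 13, .word 1 2 10 14, .word 1 2 11 15, .word 1 2 12 16, .comp 2 17, .form 10, .comp 0 0, .comp 1 1, .word 2 0 2 2, .word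 2 0 3 3, .word 2 0 4 4, .word 2 0 5 5, .word 2 0 6 6, .word 2 1 2 7, .word 2 1 3 8, .word 2 1 4 9, .word 2 1 5 10, .word 2 1 6 11, .word 2 1 7 12, .word 2 1 8 13, .word 2 1 9 14, .word 2 1 10 15, .word 2 1 11 16, .word 2 1 12 17, .form 11, .comp 0 0, .word 1 2 2 1, .word 1 2 3 2, .word 1 2 4 3, .word 1 2 5 4, .comp 2 5, .form 12, .comp 0 0, .comp 1 1, .word 2 1 2 2, .word 2 1 3 3, .word 2 1 4 4, .word 2 1 5 5, .form 13, .comp 0 0, .word 1 0 2 1, .comp 2 2, .form 14, .comp 0 0, .comp 1 1, .word 2 0 2 2, .form 15, .form 16, .word 1 2 12 0, .word 2 1 12 1, .form 17, .comp 0 0, .comp 2 1, .form 18, .form 19, .form 20, .comp 0 0, .comp 1 1, .form 21, .word 1 2 12 0, .word 2 1 12 1, .form 22, .form 23, .form 24, .form 25,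 .form 26, .form 27, .form 28, .form 29, .form 30, .form 31, .form 32, .form 33, .form 34, .form 35, .form 36, .form 37, .form 38, .form 39]
  pks := [159, 158, 157, 156, 155, 154, 153, 151, 150, 149, 148, 146, 145, 142, 141, 138, 137, 136, 132, 131, 125, 124, 123, 122, 121, 120, 119, 118, 117, 116, 115, 114, 113, 112, 111, 110, 109, 108, 107, 106, 105, 104, 103, 102, 101, 100, 99, 98, 97, 96, 95, 94, 93, 92, 91, 90, 89, 74, 73, 72, 71, 70, 69, 54, 53, 52, 51, 50, 49, 48, 47, 46, 45, 44, 43, 42, 41, 40, 39, 38, 37, 36, 35, 34, 33, 32, 31, 28, 27, 26, 25, 24, 23, 22, 21, 20, 17, 16, 15, 14, 13, 12, 11, 10, 9, 8, 7, 6, 5, 4, 3, 2, 1, 0]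
  cn := [⟨0, 1, 0, 0, 1, 4, 11, 20⟩, ⟨0, 1, 0, 0, 2, 4, 13, 20⟩, ⟨0, 1, 0, 0, 3, 4, 15, 20⟩, ⟨0, 1, 0, 0, 16, 4, 86, 20⟩, ⟨0, 1, 0, 0, 21, 4, 95, 20⟩, ⟨0, 1, 0, 0, 3, 15, 15, 85⟩, ⟨0, 1, 0, 0, 16, 15, 86, 85⟩, ⟨0, 1, 0, 0, 21, 15, 95, 85⟩, ⟨1, 2, 3, 2, 0, 11, 3, 65⟩, ⟨1, 2, 3, 2, 4, 11, 21, 65⟩, ⟨1, 2, 4, 2, 0, 11, 8, 65⟩, ⟨1, 2, 4, 2, 4, 11, 26, 65⟩, ⟨1, 2, 5, 3, 0, 11, 4, 66⟩, ⟨1, 2, 5, 3, 4, 11, 22, 66⟩, ⟨1, 2, 6, 3, 0, 11, 9, 66⟩, ⟨1, 2, 6, 3, 4, 11, 27, 66⟩, ⟨1, 2, 7, 4, 0, 11, 5, 67⟩, ⟨1, 2, 7, 4, 4, 11, 23, 67⟩, ⟨1, 2, 8, 4, 0, 11, 10, 67⟩, ⟨1, 2, 8, 4, 4, 11, 28, 67⟩, ⟨1, 2, 9, 5, 0, 11, 6, 68⟩, ⟨1, 2, 9, 5, 4, 11, 24, 68⟩, ⟨0, 1, 0, 0, 24, 5, 98, 29⟩, ⟨2, 0, 2, 2, 24, 8, 98, 52⟩, ⟨0, 1, 0, 0, 25, 5, 99, 29⟩,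 ⟨0, 2, 2, 2, 25, 0, 99, 2⟩, ⟨2, 0, 2, 2, 25, 14, 99, 84⟩, ⟨0, 1, 0, 0, 26, 5, 100, 29⟩, ⟨0, 2, 2, 2, 26, 0, 100, 2⟩, ⟨2, 0, 2, 2, 26, 8, 100, 52⟩, ⟨0, 1, 0, 0, 27, 5, 101, 29⟩, ⟨0, 2, 2, 2, 27, 0, 101, 2⟩, ⟨2, 0, 2, 2, 27, 8, 101, 52⟩, ⟨0, 1, 0, 0, 28, 5, 102, 29⟩, ⟨0, 2, 2, 2, 28, 0, 102, 2⟩, ⟨2, 0, 2, 2, 28, 8, 102, 52⟩, ⟨0, 1, 0, 0, 29, 5, 103, 29⟩, ⟨0, 2, 2, 2, 29, 0, 103, 2⟩, ⟨2, 0, 2, 2, 29, 8, 103, 52⟩, ⟨0, 1, 0, 0, 30, 5, 104, 29⟩, ⟨0, 2, 2, 2, 30, 0, 104, 2⟩, ⟨2, 0, 2, 2, 30, 8, 104, 52⟩, ⟨0, 1, 0, 0, 31, 5, 105, 29⟩, ⟨0, 2, 2, 2, 31, 0, 105, 2⟩, ⟨2, 0, 2, 2, 31, 8, 105, 52⟩, ⟨0, 1, 0, 0, 11, 5, 63, 29⟩, ⟨0, 2, 2, 1, 11, 0, 69, 0⟩, ⟨2, 0, 2, 1, 11, 8, 64, 51⟩, ⟨0, 1, 0, 0, 13, 5, 77, 29⟩, ⟨0, 2, 2, 1, 13, 2,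 80, 14⟩, ⟨2, 0, 2, 1, 13, 8, 78, 51⟩, ⟨0, 1, 0, 0, 7, 5, 43, 29⟩, ⟨0, 2, 2, 1, 7, 2, 47, 14⟩, ⟨2, 0, 2, 1, 7, 8, 44, 51⟩, ⟨0, 1, 0, 0, 9, 5, 53, 29⟩, ⟨0, 2, 2, 1, 9, 2, 57, 14⟩, ⟨2, 0, 2, 1, 9, 8, 54, 51⟩, ⟨0, 1, 0, 0, 17, 5, 87, 29⟩, ⟨0, 2, 2, 1, 17, 2, 89, 14⟩, ⟨2, 0, 2, 1, 17, 8, 88, 51⟩, ⟨0, 2, 3, 2, 5, 3, 30, 18⟩, ⟨2, 0, 3, 2, 5, 10, 33, 61⟩, ⟨0, 2, 4, 2, 5, 3, 34, 18⟩, ⟨2, 0, 4, 2, 5, 10, 31, 61⟩, ⟨0, 2, 5, 3, 5, 3, 31, 19⟩, ⟨2, 0, 5, 3, 5, 10, 34, 62⟩, ⟨0, 2, 6, 3, 5, 3, 35, 19⟩, ⟨2, 0, 6, 3, 5, 10, 32, 62⟩, ⟨2, 1, 3, 2, 0, 12, 7, 73⟩, ⟨2, 1, 3, 2, 4, 12, 25, 73⟩, ⟨2, 1, 4, 2, 0, 12, 4, 73⟩, ⟨2, 1, 4, 2, 4, 12, 22, 73⟩, ⟨2, 1, 5, 3, 0, 12, 8, 74⟩, ⟨2, 1, 5, 3, 4, 12, 26, 74⟩, ⟨2, 1, 6, 3, 0, 12, 5, 74⟩, ⟨2, 1,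 6, 3, 4, 12, 23, 74⟩, ⟨2, 1, 7, 4, 0, 12, 9, 75⟩, ⟨2, 1, 7, 4, 4, 12, 27, 75⟩, ⟨2, 1, 8, 4, 0, 12, 6, 75⟩, ⟨2, 1, 8, 4, 4, 12, 24, 75⟩, ⟨2, 1, 9, 5, 0, 12, 10, 76⟩, ⟨2, 1, 9, 5, 4, 12, 28, 76⟩, ⟨0, 1, 0, 0, 32, 6, 106, 36⟩, ⟨1, 0, 2, 2, 32, 7, 106, 46⟩, ⟨0, 1, 0, 0, 33, 6, 107, 36⟩, ⟨0, 1, 2, 2, 33, 0, 107, 1⟩, ⟨1, 0, 2, 2, 33, 13, 107, 79⟩, ⟨0, 1, 0, 0, 34, 6, 108, 36⟩, ⟨0, 1, 2, 2, 34, 0, 108, 1⟩, ⟨1, 0, 2, 2, 34, 7, 108, 46⟩, ⟨0, 1, 0, 0, 35, 6, 109, 36⟩, ⟨0, 1, 2, 2, 35, 0, 109, 1⟩, ⟨1, 0, 2, 2, 35, 7, 109, 46⟩, ⟨0, 1, 0, 0, 36, 6, 110, 36⟩, ⟨0, 1, 2, 2, 36, 0, 110, 1⟩, ⟨1, 0, 2, 2, 36, 7, 110, 46⟩, ⟨0, 1, 0, 0, 37, 6, 111, 36⟩, ⟨0, 1, 2, 2, 37, 0, 111, 1⟩, ⟨1, 0, 2, 2, 37, 7, 111, 46⟩, ⟨0, 1, 0, 0, 38, 6, 112, 36⟩,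 ⟨0, 1, 2, 2, 38, 0, 112, 1⟩, ⟨1, 0, 2, 2, 38, 7, 112, 46⟩, ⟨0, 1, 0, 0, 39, 6, 113, 36⟩, ⟨0, 1, 2, 2, 39, 0, 113, 1⟩, ⟨1, 0, 2, 2, 39, 7, 113, 46⟩, ⟨0, 1, 0, 0, 12, 6, 70, 36⟩, ⟨0, 1, 2, 1, 12, 0, 72, 0⟩, ⟨1, 0, 2, 1, 12, 7, 71, 45⟩, ⟨0, 1, 0, 0, 14, 6, 81, 36⟩, ⟨0, 1, 2, 1, 14, 1, 83, 12⟩, ⟨1, 0, 2, 1, 14, 7, 82, 45⟩, ⟨0, 1, 0, 0, 8, 6, 48, 36⟩, ⟨0, 1, 2, 1, 8, 1, 50, 12⟩, ⟨1, 0, 2, 1, 8, 7, 49, 45⟩, ⟨0, 1, 0, 0, 10, 6, 58, 36⟩, ⟨0, 1, 2, 1, 10, 1, 60, 12⟩, ⟨1, 0, 2, 1, 10, 7, 59, 45⟩, ⟨0, 1, 0, 0, 20, 6, 92, 36⟩, ⟨0, 1, 2, 1, 20, 1, 94, 12⟩, ⟨1, 0, 2, 1, 20, 7, 93, 45⟩, ⟨0, 1, 3, 2, 6, 3, 37, 16⟩, ⟨1, 0, 3, 2, 6, 9, 40, 55⟩, ⟨0, 1, 4, 2, 6, 3, 41, 16⟩, ⟨1, 0, 4, 2, 6, 9, 38, 55⟩, ⟨0, 1, 5, 3, 6, 3, 38, 17⟩, ⟨1, 0,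 5, 3, 6, 9, 41, 56⟩, ⟨0, 1, 6, 3, 6, 3, 42, 17⟩, ⟨1, 0, 6, 3, 6, 9, 39, 56⟩, ⟨0, 1, 0, 0, 6, 18, 36, 90⟩, ⟨0, 1, 0, 0, 5, 22, 29, 96⟩, ⟨0, 1, 0, 0, 6, 19, 36, 91⟩, ⟨0, 1, 0, 0, 5, 23, 29, 97⟩]
  pp := [⟨0, 1, 1, 0, 159⟩, ⟨1, 2, 1, 7, 100⟩, ⟨2, 0, 1, 8, 94⟩, ⟨0, 1, 0, 18, 25⟩, ⟨2, 0, 0, 22, 17⟩, ⟨0, 1, 0, 19, 24⟩, ⟨2, 0, 0, 23, 16⟩, ⟨1, 2, 2, 9, 85⟩, ⟨1, 2, 3, 9, 84⟩, ⟨1, 2, 4, 9, 83⟩, ⟨1, 2, 5, 9, 82⟩, ⟨1, 2, 6, 9, 81⟩, ⟨1, 2, 7, 9, 80⟩, ⟨1, 2, 8, 9, 79⟩, ⟨1, 2, 9, 9, 78⟩, ⟨1, 2, 10, 9, 77⟩, ⟨1, 2, 11, 9, 76⟩, ⟨0, 1, 2, 0, 158⟩, ⟨1, 0, 2, 7, 99⟩, ⟨0, 1, 3, 3, 136⟩, ⟨1, 0, 3, 9, 89⟩, ⟨0, 1, 4, 3, 135⟩, ⟨1, 0, 4, 9, 88⟩, ⟨0, 1, 5, 3, 134⟩, ⟨1, 0, 5, 9, 87⟩, ⟨0, 1, 6, 3, 133⟩, ⟨1, 0, 6, 9, 86⟩, ⟨2, 1, 2, 10, 65⟩, ⟨2, 1,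 3, 10, 64⟩, ⟨2, 1, 4, 10, 63⟩, ⟨2, 1, 5, 10, 62⟩, ⟨2, 1, 6, 10, 61⟩, ⟨2, 1, 7, 10, 60⟩, ⟨2, 1, 8, 10, 59⟩, ⟨2, 1, 9, 10, 58⟩, ⟨2, 1, 10, 10, 57⟩, ⟨2, 1, 11, 10, 56⟩, ⟨0, 2, 2, 0, 157⟩, ⟨2, 0, 2, 8, 93⟩, ⟨0, 2, 3, 3, 131⟩, ⟨2, 0, 3, 10, 69⟩, ⟨0, 2, 4, 3, 130⟩, ⟨2, 0, 4, 10, 68⟩, ⟨0, 2, 5, 3, 129⟩, ⟨2, 0, 5, 10, 67⟩, ⟨0, 2, 6, 3, 128⟩, ⟨2, 0, 6, 10, 66⟩, ⟨1, 2, 12, 9, 75⟩, ⟨2, 1, 12, 10, 55⟩]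
  pn := [⟨0, 1, 0, 0, 160⟩, ⟨0, 1, 0, 1, 146⟩, ⟨0, 1, 0, 2, 142⟩, ⟨0, 1, 0, 3, 138⟩, ⟨0, 1, 0, 16, 31⟩, ⟨0, 1, 0, 21, 20⟩, ⟨0, 1, 0, 24, 15⟩, ⟨0, 1, 0, 25, 14⟩, ⟨0, 1, 0, 26, 13⟩, ⟨0, 1, 0, 27, 12⟩, ⟨0, 1, 0, 28, 11⟩, ⟨0, 1, 0, 29, 10⟩, ⟨0, 1, 0, 30, 9⟩, ⟨0, 1, 0, 31, 8⟩, ⟨0, 1, 0, 11, 54⟩, ⟨0, 1, 0, 13, 40⟩, ⟨0, 1, 0, 7, 102⟩, ⟨0, 1, 0, 9, 92⟩, ⟨0, 1, 0, 17, 28⟩, ⟨0, 1, 0, 32, 7⟩, ⟨0, 1, 0, 33, 6⟩, ⟨0, 1, 0, 34, 5⟩, ⟨0, 1, 0, 35, 4⟩, ⟨0, 1, 0, 36, 3⟩, ⟨0, 1, 0, 37, 2⟩, ⟨0, 1, 0, 38, 1⟩, ⟨0, 1, 0, 39, 0⟩, ⟨0, 1, 0, 12, 47⟩, ⟨0, 1, 0, 14, 36⟩, ⟨0, 1, 0, 8, 97⟩, ⟨0, 1, 0, 10, 73⟩, ⟨0, 1, 0, 20, 23⟩, ⟨1, 2, 12, 0, 152⟩, ⟨1, 2, 12, 1, 144⟩, ⟨1, 2, 12, 2, 140⟩, ⟨1, 2, 12, 3, 127⟩, ⟨1, 2, 12, 16, 30⟩, ⟨1, 2, 12, 21, 19⟩, ⟨2,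 1, 12, 0, 147⟩, ⟨2, 1, 12, 1, 143⟩, ⟨2, 1, 12, 2, 139⟩, ⟨2, 1, 12, 3, 126⟩, ⟨2, 1, 12, 16, 29⟩, ⟨2, 1, 12, 21, 18⟩]
  st := [(0, 0), (1, 0), (2, 0), (3, 0), (16, 0), (21, 0), (24, 1), (25, 1), (26, 1), (27, 1), (28, 1), (29, 1), (30, 1), (31, 1), (11, 1), (13, 1), (7, 1), (9, 1), (17, 1), (32, 2), (33, 2), (34, 2), (35, 2), (36, 2), (37, 2), (38, 2), (39, 2), (12, 2), (14, 2), (8, 2), (10, 2), (20, 2)]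
  sk d := [.img 1 2 2 0 24,
    .img 1 2 2 1 25,
    .img 1 2 2 2 26,
    .img 1 2 2 15 27,
    .img 1 2 10 0 28,
    .img 1 2 10 4 29,
    .img 1 2 11 0 30,
    .img 1 2 11 4 31,
    .img 2 1 2 0 32,
    .img 2 1 2 2 33,
    .img 2 1 2 1 34,
    .img 2 1 2 15 35,
    .img 2 1 10 0 36,
    .img 2 1 10 4 37,
    .img 2 1 11 0 38,
    .img 2 1 11 4 39,
    .bT true 0 1 2 24 0 ⟨(d.e.getD 0 (.cst 0 0)), (d.e.getD 1 (.cst 0 0)), (d.e.getD 2 (.cst 0 0)), (d.e.getD 3 (.cst 0 0))⟩ (d.e.getD 4 (.cst 0 0)),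
    .bT false 0 1 2 32 0 ⟨(d.e.getD 0 (.cst 0 0)), (d.e.getD 1 (.cst 0 0)), (d.e.getD 2 (.cst 0 0)), (d.e.getD 3 (.cst 0 0))⟩ (d.e.getD 5 (.cst 0 0))]
  sf := [⟨1, 2, 2, some 0, 24⟩, ⟨1, 2, 2, some 1, 25⟩, ⟨1, 2, 2, some 2, 26⟩, ⟨1, 2, 2, some 15, 27⟩, ⟨1, 2, 10, some 0, 28⟩, ⟨1, 2, 10, some 4, 29⟩, ⟨1, 2, 11, some 0, 30⟩, ⟨1, 2, 11, some 4, 31⟩, ⟨2, 1, 2, some 0, 32⟩, ⟨2, 1, 2, some 2, 33⟩, ⟨2, 1, 2, some 1, 34⟩, ⟨2, 1, 2, some 15, 35⟩, ⟨2, 1, 10, some 0, 36⟩, ⟨2, 1, 10, some 4, 37⟩, ⟨2, 1, 11, some 0, 38⟩, ⟨2, 1, 11, some 4, 39⟩, ⟨0, 2, 2, some 24, 0⟩, ⟨0, 1, 2, some 32, 0⟩]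
  vd d := fun i j => match i, j with
    | 0, 1 => .sym false (d.f.getD 0 (.cst 0 0)) 2 16 18 19
    | 0, 2 => .sym true (d.f.getD 1 (.cst 0 0)) 2 21 22 23
    | 1, 0 => .sym true (d.f.getD 0 (.cst 0 0)) 2 17 18 19
    | 1, 2 => .small 12 9
    | 2, 0 => .sym false (d.f.getD 1 (.cst 0 0)) 2 20 22 23
    | 2, 1 => .small 12 10
    | _, _ => .small 0 0
  vx := fun i j => match i, j with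
    | 0, 1 => .big 7 16 18 19
    | 0, 2 => .big 7 21 23 22
    | 1, 0 => .big 7 17 19 18
    | 1, 2 => .small 12 9
    | 2, 0 => .big 7 20 22 23
    | 2, 1 => .small 12 10
    | _, _ => .small 0 0
  lb := fun _ _ => 0

theorem TA12_ok {K : ℕ → ℕ → ℕ → Prop} (hK : ∀ p q r, K p q r → p = 12) : TA12.OK K where
  ok := Sys.ok_of (by decide +kernel)
  stt := by decide +kernel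
  vx d i j := by fin_cases i <;> fin_cases j <;> rfl
  vd d i j hij := by
    fin_cases i <;> fin_cases j <;> first | exact absurd rfl hij | exact ⟨rfl, rfl, rfl⟩ | exact trivial
  sf d := rfl
  sk d s hs := by
    rcases List.mem_cons.1 hs with rfl | hs
    · exact Or.inl rfl
    rcases List.mem_cons.1 hs with rfl | hs
    · exact Or.inl rfl
    rcases List.mem_cons.1 hs with rfl | hs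
    · exact Or.inl rfl
    rcases List.mem_cons.1 hs with rfl | hs
    · exact Or.inl rfl
    rcases List.mem_cons.1 hs with rfl | hs
    · exact Or.inl rfl
    rcases List.mem_cons.1 hs with rfl | hs
    · exact Or.inl rfl
    rcases List.mem_cons.1 hs with rfl | hs
    · exact Or.inl rfl
    rcases List.mem_cons.1 hs with rfl | hs
    · exact Or.inl rfl
    rcases List.mem_cons.1 hs with rfl | hs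
    · exact Or.inl rfl
    rcases List.mem_cons.1 hs with rfl | hs
    · exact Or.inl rfl
    rcases List.mem_cons.1 hs with rfl | hs
    · exact Or.inl rfl
    rcases List.mem_cons.1 hs with rfl | hs
    · exact Or.inl rfl
    rcases List.mem_cons.1 hs with rfl | hs
    · exact Or.inl rfl
    rcases List.mem_cons.1 hs with rfl | hs
    · exact Or.inl rfl
    rcases List.mem_cons.1 hs with rfl | hs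
    · exact Or.inl rfl
    rcases List.mem_cons.1 hs with rfl | hs
    · exact Or.inl rfl
    rcases List.mem_cons.1 hs with rfl | hs
    · exact ⟨by decide, by decide, by decide, rfl, Or.inl rfl⟩
    rcases List.mem_cons.1 hs with rfl | hs
    · exact ⟨by decide, by decide, by decide, rfl, Or.inl rfl⟩
    exact absurd hs List.not_mem_nil
  cl d p q r hp hq hr hK' i j hij := by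
    have h3 := hK p q r hK'
    refine ⟨Nat.zero_le _, fun m E h => ?_⟩
    fin_cases i <;> fin_cases j <;> first
      | exact absurd rfl hij
      | exact VD.noConfusion h
      | exact VD.noConfusion h fun e _ => h3.trans e

end Pool.Agent.Work.MP_88b7aa_gt.Kc
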