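import Pool.Agent.Work.MP_88b7aa_gt.Kc.CellL
import Pool.Agent.Work.MP_88b7aa_gt.PQ.SysQ

/-!
# Template B, p = 12
-/

set_option autoImplicit false

namespace Pool.Agent.Work.MP_88b7aa_gt.Kc

open Pool.Agent.Work.MP_88b7aa_gt.CH
open Pool.Agent.Work.MP_88b7aa_gt.PQ
open ComplexConjugate Complex Matrix

/-- The template `TB12`. -/
def TB12t : Tm where
  fes d := [TFE 0 1 2 (d.e.getD 0 (.cst 0 0)) (d.e.getD 1 (.cst 0 0)) (d.e.getD 2 (.cst 0 0)) (d.e.getD 3 (.cst 0 0)),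
    FEB 0 1 2 (d.e.getD 6 (.cst 0 0)) (d.e.getD 7 (.cst 0 0)) (d.e.getD 8 (.cst 0 0)) (d.e.getD 9 (.cst 0 0)),
    FEB 0 2 1 (d.e.getD 10 (.cst 0 0)) (d.e.getD 11 (.cst 0 0)) (d.e.getD 12 (.cst 0 0)) (d.e.getD 13 (.cst 0 0)),
    d.c.getD 0 .gram,
    d.c.getD 1 .gram,
    d.c.getD 2 .gram,
    d.c.getD 3 .gram,
    d.c.getD 4 .gram,
    d.c.getD 5 .gram,
    d.c.getD 6 .gram,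
    d.c.getD 7 .gram,
    d.c.getD 8 .gram,
    d.c.getD 9 .gram,
    FE.pushL [1] (FEB 0 2 1 (.sub (ic 0) (d.e.getD 11 (.cst 0 0))) (.add (d.e.getD 10 (.cst 0 0)) (.mul TTS (d.e.getD 11 (.cst 0 0)))) (d.e.getD 12 (.cst 0 0)) (d.e.getD 13 (.cst 0 0))),
    FE.pushL [2] (FEB 0 1 2 (.sub (ic 0) (d.e.getD 7 (.cst 0 0))) (.add (d.e.getD 6 (.cst 0 0)) (.mul TTS (d.e.getD 7 (.cst 0 0)))) (d.e.getD 8 (.cst 0 0)) (d.e.getD 9 (.cst 0 0))),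
    d.c.getD 10 .gram,
    FEV 0 1 (d.f.getD 0 (.cst 0 0)) (ngS (DpS (.par (cpar 0 1)) 2)) (ngS (DpS (.par (cpar 0 1)) 3)),
    FEV 0 1 (d.f.getD 0 (.cst 0 0)) (ngS (DpS (.par (cpar 0 1)) 3)) (ngS (DpS (.par (cpar 0 1)) 2)),
    FEV 0 1 (d.f.getD 0 (.cst 0 0)) (DpS (.par (cpar 0 1)) 4) (DpS (.par (cpar 0 1)) 3),
    FEV 0 1 (d.f.getD 0 (.cst 0 0)) (DpS (.par (cpar 0 1)) 3) (DpS (.par (cpar 0 1)) 4),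
    FEV 2 0 (d.f.getD 1 (.cst 0 0)) (ngS (DpS (.par (cpar 2 0)) 2)) (ngS (DpS (.par (cpar 2 0)) 3)),
    FEV 2 0 (d.f.getD 1 (.cst 0 0)) (ngS (DpS (.par (cpar 2 0)) 3)) (ngS (DpS (.par (cpar 2 0)) 2)),
    FEV 2 0 (d.f.getD 1 (.cst 0 0)) (DpS (.par (cpar 2 0)) 4) (DpS (.par (cpar 2 0)) 3),
    FEV 2 0 (d.f.getD 1 (.cst 0 0)) (DpS (.par (cpar 2 0)) 3) (DpS (.par (cpar 2 0)) 4),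
    .word 2 1 2 (TFE 0 1 2 (d.e.getD 0 (.cst 0 0)) (d.e.getD 1 (.cst 0 0)) (d.e.getD 2 (.cst 0 0)) (d.e.getD 3 (.cst 0 0))),
    FE.pushL [2, 1] (FEB 0 1 2 (d.e.getD 6 (.cst 0 0)) (d.e.getD 7 (.cst 0 0)) (d.e.getD 8 (.cst 0 0)) (d.e.getD 9 (.cst 0 0))),
    FE.pushL [2, 1] (FEB 0 2 1 (d.e.getD 10 (.cst 0 0)) (d.e.getD 11 (.cst 0 0)) (d.e.getD 12 (.cst 0 0)) (d.e.getD 13 (.cst 0 0))),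
    .word 2 1 2 (d.c.getD 10 .gram),
    .word 2 1 10 (TFE 0 1 2 (d.e.getD 0 (.cst 0 0)) (d.e.getD 1 (.cst 0 0)) (d.e.getD 2 (.cst 0 0)) (d.e.getD 3 (.cst 0 0))),
    .word 2 1 10 (d.c.getD 1 .gram),
    .word 1 2 11 (TFE 0 1 2 (d.e.getD 0 (.cst 0 0)) (d.e.getD 1 (.cst 0 0)) (d.e.getD 2 (.cst 0 0)) (d.e.getD 3 (.cst 0 0))),
    .word 1 2 11 (d.c.getD 1 .gram),
    .word 1 2 2 (TFE 0 1 2 (d.e.getD 0 (.cst 0 0)) (d.e.getD 1 (.cst 0 0)) (d.e.getD 2 (.cst 0 0)) (d.e.getD 3 (.cst 0 0))),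
    FE.pushL [1, 2] (FEB 0 2 1 (d.e.getD 10 (.cst 0 0)) (d.e.getD 11 (.cst 0 0)) (d.e.getD 12 (.cst 0 0)) (d.e.getD 13 (.cst 0 0))),
    FE.pushL [1, 2] (FEB 0 1 2 (d.e.getD 6 (.cst 0 0)) (d.e.getD 7 (.cst 0 0)) (d.e.getD 8 (.cst 0 0)) (d.e.getD 9 (.cst 0 0))),
    .word 1 2 2 (d.c.getD 10 .gram),
    .word 1 2 10 (TFE 0 1 2 (d.e.getD 0 (.cst 0 0)) (d.e.getD 1 (.cst 0 0)) (d.e.getD 2 (.cst 0 0)) (d.e.getD 3 (.cst 0 0))),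
    .word 1 2 10 (d.c.getD 1 .gram),
    .word 2 1 11 (TFE 0 1 2 (d.e.getD 0 (.cst 0 0)) (d.e.getD 1 (.cst 0 0)) (d.e.getD 2 (.cst 0 0)) (d.e.getD 3 (.cst 0 0))),
    .word 2 1 11 (d.c.getD 1 .gram)]
  is := [.form 0, .comp 0 0, .word 0 1 2 1, .word 0 2 2 2, .comp 1 3, .word 1 2 2 4, .word 1 2 3 5, .word 1 2 4 6, .word 1 2 12 7, .comp 2 8, .word 2 1 2 9, .word 2 1 3 10, .word 2 1 4 11, .word 2 1 12 12, .form 1, .push 1 [1, 2, 1, 2, 1, 2, 1, 2, 1, 2, 1, 2], .push 1 [2, 1, 2, 1, 2, 1, 2, 1, 2, 1, 2, 1], .form 2, .push 2 [1, 2, 1, 2, 1, 2, 1, 2, 1, 2, 1, 2], .push 2 [2, 1, 2, 1, 2, 1, 2, 1, 2, 1, 2, 1], .form 3, .word 0 1 2 0, .word 0 1 3 1, .word 0 1 4 2, .word 0 1 5 3, .word 0 1 6 4, .word 0 2 2 5, .word 0 2 3 6, .word 0 2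 4 7, .word 0 2 5 8, .word 0 2 6 9, .word 1 2 12 10, .word 2 1 12 11, .form 4, .comp 1 0, .word 1 2 2 1, .word 1 2 3 2, .word 1 2 4 3, .comp 2 4, .word 2 1 2 5, .word 2 1 3 6, .word 2 1 4 7, .form 5, .comp 0 0, .word 0 2 2 1, .word 0 2 3 2, .comp 2 3, .word 2 0 2 4, .word 2 0 3 5, .form 6, .comp 0 0, .word 0 1 2 1, .word 0 1 3 2, .comp 1 3, .word 1 0 2 4, .word 1 0 3 5, .form 7, .comp 0 0, .comp 1 1, .word 1 0 2 2, .word 2 0 2 3, .form 8, .comp 0 0, .word 1 0 2 1, .comp 2 2, .word 2 0 2 3, .form 9, .comp 0 0, .word 1 0 2 1, .word 1 0 3 2, .word 1 0 4 3, .word 1 0 5 4, .word 1 0 6 5, .word 1 2 2 6, .word 1 2 3 7, .word 1 2 4 8, .word 1 2 5 9, .word 1 2 6 10, .word 1 2 7 11, .word 1 2 8 12, .word 1 2 9 13, .word 1 2 10 14, .word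 1 2 11 15, .word 1 2 12 16, .word 2 0 2 17, .form 10, .comp 0 0, .word 1 0 2 1, .word 2 0 2 2, .word 2 0 3 3, .word 2 0 4 4, .word 2 0 5 5, .word 2 0 6 6, .word 2 1 2 7, .word 2 1 3 8, .word 2 1 4 9, .word 2 1 5 10, .word 2 1 6 11, .word 2 1 7 12, .word 2 1 8 13, .word 2 1 9 14, .word 2 1 10 15, .word 2 1 11 16, .word 2 1 12 17, .form 11, .comp 0 0, .word 1 2 2 1, .word 1 2 3 2, .word 1 2 4 3, .word 1 2 5 4, .comp 2 5, .form 12, .comp 0 0, .comp 1 1, .word 2 1 2 2, .word 2 1 3 3, .word 2 1 4 4, .word 2 1 5 5, .form 13, .form 14, .form 15, .form 16, .word 1 2 12 0, .word 2 1 12 1, .form 17, .comp 0 0, .word 2 0 2 1, .form 18, .form 19, .form 20, .comp 0 0, .word 1 0 2 1, .form 21, .word 1 2 12 0, .word 2 1 12 1, .form 22, .form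 23, .form 24, .form 25, .form 26, .form 27, .form 28, .form 29, .form 30, .form 31, .form 32, .form 33, .form 34, .form 35, .form 36, .form 37, .form 38, .form 39]
  pks := [151, 150, 149, 148, 147, 146, 145, 143, 142, 141, 140, 138, 135, 132, 131, 130, 126, 125, 119, 118, 117, 116, 115, 114, 113, 112, 111, 110, 109, 108, 107, 106, 105, 104, 103, 102, 101, 100, 99, 98, 97, 96, 95, 94, 93, 92, 91, 90, 89, 88, 87, 86, 85, 84, 83, 68, 67, 66, 65, 64, 63, 48, 47, 46, 45, 44, 43, 42, 41, 40, 39, 38, 37, 36, 35, 34, 33, 32, 31, 28, 27, 26, 25, 24, 23, 22, 21, 20, 17, 16, 15, 14, 13, 12, 11, 10, 9, 8, 7, 6, 5, 4, 3, 2, 1, 0]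
  cn := [⟨0, 1, 0, 0, 1, 4, 11, 18⟩, ⟨0, 1, 0, 0, 2, 4, 12, 18⟩, ⟨0, 1, 0, 0, 3, 4, 13, 18⟩, ⟨0, 1, 0, 0, 16, 4, 78, 18⟩, ⟨0, 1, 0, 0, 21, 4, 87, 18⟩, ⟨0, 1, 0, 0, 3, 15, 13, 77⟩, ⟨0, 1, 0, 0, 16, 15, 78, 77⟩, ⟨0, 1, 0, 0, 21, 15, 87, 77⟩, ⟨1, 2, 3, 2, 0, 11, 3, 63⟩, ⟨1, 2, 3, 2, 4, 11, 19, 63⟩, ⟨1, 2, 4, 2, 0, 11, 8, 63⟩, ⟨1, 2, 4, 2, 4, 11, 24, 63⟩, ⟨1, 2, 5, 3, 0, 11, 4, 64⟩, ⟨1, 2, 5, 3, 4, 11, 20, 64⟩, ⟨1, 2, 6, 3, 0, 11, 9, 64⟩, ⟨1, 2, 6, 3, 4, 11, 25, 64⟩, ⟨1, 2, 7, 4, 0, 11, 5, 65⟩, ⟨1, 2, 7, 4, 4, 11, 21, 65⟩, ⟨1, 2, 8, 4, 0, 11, 10, 65⟩, ⟨1, 2, 8, 4, 4, 11, 26, 65⟩, ⟨1, 2, 9, 5, 0, 11, 6, 66⟩, ⟨1, 2, 9, 5, 4, 11, 22, 66⟩, ⟨0, 1, 0, 0, 24, 5, 90, 27⟩, ⟨2, 0, 2, 2, 24, 8, 90, 50⟩, ⟨0, 1, 0, 0, 25, 5, 91, 27⟩, ⟨0, 2,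 2, 2, 25, 0, 91, 2⟩, ⟨0, 1, 0, 0, 26, 5, 92, 27⟩, ⟨0, 2, 2, 2, 26, 0, 92, 2⟩, ⟨2, 0, 2, 2, 26, 8, 92, 50⟩, ⟨0, 1, 0, 0, 27, 5, 93, 27⟩, ⟨0, 2, 2, 2, 27, 0, 93, 2⟩, ⟨2, 0, 2, 2, 27, 8, 93, 50⟩, ⟨0, 1, 0, 0, 28, 5, 94, 27⟩, ⟨0, 2, 2, 2, 28, 0, 94, 2⟩, ⟨2, 0, 2, 2, 28, 8, 94, 50⟩, ⟨0, 1, 0, 0, 29, 5, 95, 27⟩, ⟨0, 2, 2, 2, 29, 0, 95, 2⟩, ⟨2, 0, 2, 2, 29, 8, 95, 50⟩, ⟨0, 1, 0, 0, 30, 5, 96, 27⟩, ⟨0, 2, 2, 2, 30, 0, 96, 2⟩, ⟨2, 0, 2, 2, 30, 8, 96, 50⟩, ⟨0, 1, 0, 0, 31, 5, 97, 27⟩, ⟨0, 2, 2, 2, 31, 0, 97, 2⟩, ⟨2, 0, 2, 2, 31, 8, 97, 50⟩, ⟨0, 1, 0, 0, 11, 5, 61, 27⟩, ⟨0, 2, 2, 1, 11, 0, 67, 0⟩, ⟨2, 0, 2, 1, 11, 8, 62, 49⟩, ⟨0, 1, 0, 0, 13, 5, 75, 27⟩, ⟨2, 0, 2, 2, 13, 8, 75, 50⟩, ⟨0, 1, 0, 0, 7, 5, 41, 27⟩, ⟨0, 2, 2, 0, 7, 2, 45,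 12⟩, ⟨2, 0, 2, 1, 7, 8, 42, 49⟩, ⟨0, 1, 0, 0, 9, 5, 51, 27⟩, ⟨0, 2, 2, 0, 9, 2, 55, 12⟩, ⟨2, 0, 2, 1, 9, 8, 52, 49⟩, ⟨0, 1, 0, 0, 17, 5, 79, 27⟩, ⟨0, 2, 2, 0, 17, 2, 81, 12⟩, ⟨2, 0, 2, 1, 17, 8, 80, 49⟩, ⟨0, 2, 3, 2, 5, 3, 28, 16⟩, ⟨2, 0, 3, 2, 5, 10, 31, 59⟩, ⟨0, 2, 4, 2, 5, 3, 32, 16⟩, ⟨2, 0, 4, 2, 5, 10, 29, 59⟩, ⟨0, 2, 5, 3, 5, 3, 29, 17⟩, ⟨2, 0, 5, 3, 5, 10, 32, 60⟩, ⟨0, 2, 6, 3, 5, 3, 33, 17⟩, ⟨2, 0, 6, 3, 5, 10, 30, 60⟩, ⟨2, 1, 3, 2, 0, 12, 7, 71⟩, ⟨2, 1, 3, 2, 4, 12, 23, 71⟩, ⟨2, 1, 4, 2, 0, 12, 4, 71⟩, ⟨2, 1, 4, 2, 4, 12, 20, 71⟩, ⟨2, 1, 5, 3, 0, 12, 8, 72⟩, ⟨2, 1, 5, 3, 4, 12, 24, 72⟩, ⟨2, 1, 6, 3, 0, 12, 5, 72⟩, ⟨2, 1, 6, 3, 4, 12, 21, 72⟩, ⟨2, 1, 7, 4, 0, 12, 9, 73⟩, ⟨2, 1, 7, 4, 4, 12, 25, 73⟩, ⟨2, 1, 8, 4, 0,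 12, 6, 73⟩, ⟨2, 1, 8, 4, 4, 12, 22, 73⟩, ⟨2, 1, 9, 5, 0, 12, 10, 74⟩, ⟨2, 1, 9, 5, 4, 12, 26, 74⟩, ⟨0, 1, 0, 0, 32, 6, 98, 34⟩, ⟨1, 0, 2, 2, 32, 7, 98, 44⟩, ⟨0, 1, 0, 0, 33, 6, 99, 34⟩, ⟨0, 1, 2, 2, 33, 0, 99, 1⟩, ⟨0, 1, 0, 0, 34, 6, 100, 34⟩, ⟨0, 1, 2, 2, 34, 0, 100, 1⟩, ⟨1, 0, 2, 2, 34, 7, 100, 44⟩, ⟨0, 1, 0, 0, 35, 6, 101, 34⟩, ⟨0, 1, 2, 2, 35, 0, 101, 1⟩, ⟨1, 0, 2, 2, 35, 7, 101, 44⟩, ⟨0, 1, 0, 0, 36, 6, 102, 34⟩, ⟨0, 1, 2, 2, 36, 0, 102, 1⟩, ⟨1, 0, 2, 2, 36, 7, 102, 44⟩, ⟨0, 1, 0, 0, 37, 6, 103, 34⟩, ⟨0, 1, 2, 2, 37, 0, 103, 1⟩, ⟨1, 0, 2, 2, 37, 7, 103, 44⟩, ⟨0, 1, 0, 0, 38, 6, 104, 34⟩, ⟨0, 1, 2, 2, 38, 0, 104, 1⟩, ⟨1, 0, 2, 2, 38, 7, 104, 44⟩, ⟨0, 1, 0, 0, 39, 6, 105, 34⟩, ⟨0, 1, 2, 2, 39, 0, 105, 1⟩, ⟨1, 0, 2, 2, 39,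 7, 105, 44⟩, ⟨0, 1, 0, 0, 12, 6, 68, 34⟩, ⟨0, 1, 2, 1, 12, 0, 70, 0⟩, ⟨1, 0, 2, 1, 12, 7, 69, 43⟩, ⟨0, 1, 0, 0, 14, 6, 76, 34⟩, ⟨1, 0, 2, 2, 14, 7, 76, 44⟩, ⟨0, 1, 0, 0, 8, 6, 46, 34⟩, ⟨0, 1, 2, 0, 8, 1, 48, 11⟩, ⟨1, 0, 2, 1, 8, 7, 47, 43⟩, ⟨0, 1, 0, 0, 10, 6, 56, 34⟩, ⟨0, 1, 2, 0, 10, 1, 58, 11⟩, ⟨1, 0, 2, 1, 10, 7, 57, 43⟩, ⟨0, 1, 0, 0, 20, 6, 84, 34⟩, ⟨0, 1, 2, 0, 20, 1, 86, 11⟩, ⟨1, 0, 2, 1, 20, 7, 85, 43⟩, ⟨0, 1, 3, 2, 6, 3, 35, 14⟩, ⟨1, 0, 3, 2, 6, 9, 38, 53⟩, ⟨0, 1, 4, 2, 6, 3, 39, 14⟩, ⟨1, 0, 4, 2, 6, 9, 36, 53⟩, ⟨0, 1, 5, 3, 6, 3, 36, 15⟩, ⟨1, 0, 5, 3, 6, 9, 39, 54⟩, ⟨0, 1, 6, 3, 6, 3, 40, 15⟩, ⟨1, 0, 6, 3, 6, 9, 37, 54⟩, ⟨0, 1, 0, 0, 6, 18, 34, 82⟩, ⟨0, 1, 0, 0, 5, 22, 27, 88⟩, ⟨0, 1, 0, 0, 6, 19, 34, 83⟩, ⟨0, 1,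 0, 0, 5, 23, 27, 89⟩]
  pp := [⟨0, 1, 1, 0, 151⟩, ⟨1, 2, 1, 7, 94⟩, ⟨2, 0, 1, 8, 88⟩, ⟨0, 1, 0, 18, 25⟩, ⟨2, 0, 0, 22, 17⟩, ⟨0, 1, 0, 19, 24⟩, ⟨2, 0, 0, 23, 16⟩, ⟨1, 2, 2, 9, 79⟩, ⟨1, 2, 3, 9, 78⟩, ⟨1, 2, 4, 9, 77⟩, ⟨1, 2, 5, 9, 76⟩, ⟨1, 2, 6, 9, 75⟩, ⟨1, 2, 7, 9, 74⟩, ⟨1, 2, 8, 9, 73⟩, ⟨1, 2, 9, 9, 72⟩, ⟨1, 2, 10, 9, 71⟩, ⟨1, 2, 11, 9, 70⟩, ⟨0, 1, 2, 0, 150⟩, ⟨1, 0, 2, 7, 93⟩, ⟨0, 1, 3, 3, 130⟩, ⟨1, 0, 3, 9, 83⟩, ⟨0, 1, 4, 3, 129⟩, ⟨1, 0, 4, 9, 82⟩, ⟨0, 1, 5, 3, 128⟩, ⟨1, 0, 5, 9, 81⟩, ⟨0, 1, 6, 3, 127⟩, ⟨1, 0, 6, 9, 80⟩, ⟨2, 1, 2, 10, 59⟩, ⟨2, 1, 3, 10, 58⟩, ⟨2, 1, 4, 10, 57⟩, ⟨2, 1, 5, 10, 56⟩, ⟨2, 1, 6, 10, 55⟩, ⟨2, 1, 7, 10, 54⟩, ⟨2, 1, 8, 10, 53⟩, ⟨2, 1, 9, 10, 52⟩, ⟨2, 1, 10, 10, 51⟩, ⟨2, 1, 11, 10, 50⟩, ⟨0, 2, 2, 0,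 149⟩, ⟨2, 0, 2, 8, 87⟩, ⟨0, 2, 3, 3, 125⟩, ⟨2, 0, 3, 10, 63⟩, ⟨0, 2, 4, 3, 124⟩, ⟨2, 0, 4, 10, 62⟩, ⟨0, 2, 5, 3, 123⟩, ⟨2, 0, 5, 10, 61⟩, ⟨0, 2, 6, 3, 122⟩, ⟨2, 0, 6, 10, 60⟩, ⟨1, 2, 12, 9, 69⟩, ⟨2, 1, 12, 10, 49⟩]
  pn := [⟨0, 1, 0, 0, 152⟩, ⟨0, 1, 0, 1, 138⟩, ⟨0, 1, 0, 2, 135⟩, ⟨0, 1, 0, 3, 132⟩, ⟨0, 1, 0, 16, 31⟩, ⟨0, 1, 0, 21, 20⟩, ⟨0, 1, 0, 24, 15⟩, ⟨0, 1, 0, 25, 14⟩, ⟨0, 1, 0, 26, 13⟩, ⟨0, 1, 0, 27, 12⟩, ⟨0, 1, 0, 28, 11⟩, ⟨0, 1, 0, 29, 10⟩, ⟨0, 1, 0, 30, 9⟩, ⟨0, 1, 0, 31, 8⟩, ⟨0, 1, 0, 11, 48⟩, ⟨0, 1, 0, 13, 34⟩, ⟨0, 1, 0, 7, 96⟩, ⟨0, 1, 0, 9, 86⟩, ⟨0, 1, 0, 17, 28⟩, ⟨0, 1, 0, 32, 7⟩, ⟨0, 1, 0, 33, 6⟩, ⟨0, 1, 0, 34, 5⟩, ⟨0, 1, 0, 35, 4⟩, ⟨0, 1, 0, 36, 3⟩, ⟨0, 1, 0, 37, 2⟩, ⟨0, 1, 0, 38, 1⟩, ⟨0, 1, 0, 39, 0⟩, ⟨0, 1,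 0, 12, 41⟩, ⟨0, 1, 0, 14, 33⟩, ⟨0, 1, 0, 8, 91⟩, ⟨0, 1, 0, 10, 67⟩, ⟨0, 1, 0, 20, 23⟩, ⟨1, 2, 12, 0, 144⟩, ⟨1, 2, 12, 1, 137⟩, ⟨1, 2, 12, 2, 134⟩, ⟨1, 2, 12, 3, 121⟩, ⟨1, 2, 12, 16, 30⟩, ⟨1, 2, 12, 21, 19⟩, ⟨2, 1, 12, 0, 139⟩, ⟨2, 1, 12, 1, 136⟩, ⟨2, 1, 12, 2, 133⟩, ⟨2, 1, 12, 3, 120⟩, ⟨2, 1, 12, 16, 29⟩, ⟨2, 1, 12, 21, 18⟩]
  st := [(0, 0), (1, 0), (2, 0), (3, 0), (16, 0), (21, 0), (24, 1), (25, 1), (26, 1), (27, 1), (28, 1), (29, 1), (30, 1), (31, 1), (11, 1), (13, 1), (7, 1), (9, 1), (17, 1), (32, 2), (33, 2), (34, 2), (35, 2), (36, 2), (37, 2), (38, 2), (39, 2), (12, 2), (14, 2), (8, 2), (10, 2), (20, 2)]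
  sk d := [.img 1 2 2 0 24,
    .img 1 2 2 15 27,
    .img 1 2 10 0 28,
    .img 1 2 10 4 29,
    .img 1 2 11 0 30,
    .img 1 2 11 4 31,
    .img 2 1 2 0 32,
    .img 2 1 2 15 35,
    .img 2 1 10 0 36,
    .img 2 1 10 4 37,
    .img 2 1 11 0 38,
    .img 2 1 11 4 39,
    .bT true 0 1 2 24 0 ⟨(d.e.getD 0 (.cst 0 0)), (d.e.getD 1 (.cst 0 0)), (d.e.getD 2 (.cst 0 0)), (d.e.getD 3 (.cst 0 0))⟩ (d.e.getD 4 (.cst 0 0)),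
    .bT false 0 1 2 32 0 ⟨(d.e.getD 0 (.cst 0 0)), (d.e.getD 1 (.cst 0 0)), (d.e.getD 2 (.cst 0 0)), (d.e.getD 3 (.cst 0 0))⟩ (d.e.getD 5 (.cst 0 0))]
  sf := [⟨1, 2, 2, some 0, 24⟩, ⟨1, 2, 2, some 15, 27⟩, ⟨1, 2, 10, some 0, 28⟩, ⟨1, 2, 10, some 4, 29⟩, ⟨1, 2, 11, some 0, 30⟩, ⟨1, 2, 11, some 4, 31⟩, ⟨2, 1, 2, some 0, 32⟩, ⟨2, 1, 2, some 15, 35⟩, ⟨2, 1, 10, some 0, 36⟩, ⟨2, 1, 10, some 4, 37⟩, ⟨2, 1, 11, some 0, 38⟩, ⟨2, 1, 11, some 4, 39⟩, ⟨0, 2, 2, some 24, 0⟩, ⟨0, 1, 2, some 32, 0⟩]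
  vd d := fun i j => match i, j with
    | 0, 1 => .sym false (d.f.getD 0 (.cst 0 0)) 2 16 18 19
    | 0, 2 => .sym true (d.f.getD 1 (.cst 0 0)) 2 21 22 23
    | 1, 0 => .sym true (d.f.getD 0 (.cst 0 0)) 2 17 18 19
    | 1, 2 => .small 12 9
    | 2, 0 => .sym false (d.f.getD 1 (.cst 0 0)) 2 20 22 23
    | 2, 1 => .small 12 10
    | _, _ => .small 0 0
  vx := fun i j => match i, j with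
    | 0, 1 => .big 7 16 18 19
    | 0, 2 => .big 7 21 23 22
    | 1, 0 => .big 7 17 19 18
    | 1, 2 => .small 12 9
    | 2, 0 => .big 7 20 22 23
    | 2, 1 => .small 12 10
    | _, _ => .small 0 0
  lb := fun _ _ => 0

/-- The template `TB12`. -/
def TB12 : TmL where
  T := TB12t
  bk d := [.im 1 2 2 1 25,
    .im 1 2 2 2 26,
    .im 2 1 2 2 33,
    .im 2 1 2 1 34,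
    .w2 0 2 1 13 2 (d.e.getD 10 (.cst 0 0)) (d.e.getD 11 (.cst 0 0)) (d.e.getD 12 (.cst 0 0)) (d.e.getD 13 (.cst 0 0)),
    .w2 0 1 2 14 1 (d.e.getD 6 (.cst 0 0)) (d.e.getD 7 (.cst 0 0)) (d.e.getD 8 (.cst 0 0)) (d.e.getD 9 (.cst 0 0)),
    .w1 0 1 2 25 14 (d.e.getD 6 (.cst 0 0)) (d.e.getD 7 (.cst 0 0)) (d.e.getD 8 (.cst 0 0)) (d.e.getD 9 (.cst 0 0)),
    .w1 0 2 1 33 13 (d.e.getD 10 (.cst 0 0)) (d.e.getD 11 (.cst 0 0)) (d.e.getD 12 (.cst 0 0)) (d.e.getD 13 (.cst 0 0))]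
  bf := [⟨1, 2, 2, some 1, 25⟩, ⟨1, 2, 2, some 2, 26⟩, ⟨2, 1, 2, some 2, 33⟩, ⟨2, 1, 2, some 1, 34⟩, ⟨0, 2, 2, some 13, 2⟩, ⟨0, 1, 2, some 14, 1⟩, ⟨2, 0, 2, some 25, 14⟩, ⟨1, 0, 2, some 33, 13⟩]

theorem TB12_ok {K : ℕ → ℕ → ℕ → Prop} (hK : ∀ p q r, K p q r → p = 12) : TB12.OK K where
  ok := Sys.ok_of (by decide +kernel)
  stt := by decide +kernel
  vx d i j := by fin_cases i <;> fin_cases j <;> rfl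
  vd d i j hij := by
    fin_cases i <;> fin_cases j <;> first | exact absurd rfl hij | exact ⟨rfl, rfl, rfl⟩ | exact trivial
  sf d := rfl
  sk d s hs := by
    rcases List.mem_cons.1 hs with rfl | hs
    · exact Or.inl rfl
    rcases List.mem_cons.1 hs with rfl | hs
    · exact Or.inl rfl
    rcases List.mem_cons.1 hs with rfl | hs
    · exact Or.inl rfl
    rcases List.mem_cons.1 hs with rfl | hs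
    · exact Or.inl rfl
    rcases List.mem_cons.1 hs with rfl | hs
    · exact Or.inl rfl
    rcases List.mem_cons.1 hs with rfl | hs
    · exact Or.inl rfl
    rcases List.mem_cons.1 hs with rfl | hs
    · exact Or.inl rfl
    rcases List.mem_cons.1 hs with rfl | hs
    · exact Or.inl rfl
    rcases List.mem_cons.1 hs with rfl | hs
    · exact Or.inl rfl
    rcases List.mem_cons.1 hs with rfl | hs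
    · exact Or.inl rfl
    rcases List.mem_cons.1 hs with rfl | hs
    · exact Or.inl rfl
    rcases List.mem_cons.1 hs with rfl | hs
    · exact Or.inl rfl
    rcases List.mem_cons.1 hs with rfl | hs
    · exact ⟨by decide, by decide, by decide, rfl, Or.inl rfl⟩
    rcases List.mem_cons.1 hs with rfl | hs
    · exact ⟨by decide, by decide, by decide, rfl, Or.inl rfl⟩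
    exact absurd hs List.not_mem_nil
  bk d s hs := by
    rcases List.mem_cons.1 hs with rfl | hs
    · exact rfl
    rcases List.mem_cons.1 hs with rfl | hs
    · exact rfl
    rcases List.mem_cons.1 hs with rfl | hs
    · exact rfl
    rcases List.mem_cons.1 hs with rfl | hs
    · exact rfl
    rcases List.mem_cons.1 hs with rfl | hs
    · exact ⟨by decide, by decide, by decide, rfl, rfl⟩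
    rcases List.mem_cons.1 hs with rfl | hs
    · exact ⟨by decide, by decide, by decide, rfl, rfl⟩
    rcases List.mem_cons.1 hs with rfl | hs
    · exact ⟨by decide, by decide, by decide, Or.inl rfl, rfl⟩
    rcases List.mem_cons.1 hs with rfl | hs
    · exact ⟨by decide, by decide, by decide, Or.inl rfl, rfl⟩
    exact absurd hs List.not_mem_nil
  bf d := rfl
  cl d p q r hp hq hr hK' i j hij := by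
    have h3 := hK p q r hK'
    refine ⟨Nat.zero_le _, fun m E h => ?_⟩
    fin_cases i <;> fin_cases j <;> first
      | exact absurd rfl hij
      | exact VD.noConfusion h
      | exact VD.noConfusion h fun e _ => h3.trans e

end Pool.Agent.Work.MP_88b7aa_gt.Kc
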