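import Pool.Agent.Work.MP_88b7aa_gt.Kc.CellL
import Pool.Agent.Work.MP_88b7aa_gt.PQ.SysQ

/-!
# Template AV7
-/

set_option autoImplicit false

namespace Pool.Agent.Work.MP_88b7aa_gt.Kc

open Pool.Agent.Work.MP_88b7aa_gt.CH
open Pool.Agent.Work.MP_88b7aa_gt.PQ
open ComplexConjugate Complex Matrix

/-- The template `TAV7`. -/
def TAV7 : Tm where
  fes d := [TFE 0 1 2 (d.e.getD 0 (.cst 0 0)) (d.e.getD 1 (.cst 0 0)) (d.e.getD 2 (.cst 0 0)) (d.e.getD 3 (.cst 0 0)),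
    d.c.getD 0 .gram,
    d.c.getD 1 .gram,
    d.c.getD 2 .gram,
    d.c.getD 3 .gram,
    d.c.getD 4 .gram,
    d.c.getD 5 .gram,
    d.c.getD 6 .gram,
    d.c.getD 7 .gram,
    d.c.getD 8 .gram,
    d.c.getD 9 .gram,
    d.c.getD 10 .gram,
    d.c.getD 11 .gram,
    d.c.getD 12 .gram,
    d.c.getD 13 .gram,
    d.c.getD 14 .gram,
    FEV 0 1 (d.f.getD 0 (.cst 0 0)) (ngS (DpS (.par (cpar 0 1)) 2)) (ngS (DpS (.par (cpar 0 1)) 3)),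
    FEV 0 1 (d.f.getD 0 (.cst 0 0)) (ngS (DpS (.par (cpar 0 1)) 3)) (ngS (DpS (.par (cpar 0 1)) 2)),
    FEV 0 1 (d.f.getD 0 (.cst 0 0)) (DpS (.par (cpar 0 1)) 4) (DpS (.par (cpar 0 1)) 3),
    FEV 0 1 (d.f.getD 0 (.cst 0 0)) (DpS (.par (cpar 0 1)) 3) (DpS (.par (cpar 0 1)) 4),
    FEV 2 0 (d.f.getD 1 (.cst 0 0)) (ngS (DpS (.par (cpar 2 0)) 2)) (ngS (DpS (.par (cpar 2 0)) 3)),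
    FEV 2 0 (d.f.getD 1 (.cst 0 0)) (ngS (DpS (.par (cpar 2 0)) 3)) (ngS (DpS (.par (cpar 2 0)) 2)),
    FEV 2 0 (d.f.getD 1 (.cst 0 0)) (DpS (.par (cpar 2 0)) 4) (DpS (.par (cpar 2 0)) 3),
    FEV 2 0 (d.f.getD 1 (.cst 0 0)) (DpS (.par (cpar 2 0)) 3) (DpS (.par (cpar 2 0)) 4),
    FEV 1 2 (d.f.getD 2 (.cst 0 0)) (ngS (DpS (.par (cpar 1 2)) 2)) (ngS (DpS (.par (cpar 1 2)) 3)),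
    FEV 1 2 (d.f.getD 2 (.cst 0 0)) (ngS (DpS (.par (cpar 1 2)) 3)) (ngS (DpS (.par (cpar 1 2)) 2)),
    FEV 1 2 (d.f.getD 2 (.cst 0 0)) (DpS (.par (cpar 1 2)) 4) (DpS (.par (cpar 1 2)) 3),
    FEV 1 2 (d.f.getD 2 (.cst 0 0)) (DpS (.par (cpar 1 2)) 3) (DpS (.par (cpar 1 2)) 4),
    .word 2 1 2 (TFE 0 1 2 (d.e.getD 0 (.cst 0 0)) (d.e.getD 1 (.cst 0 0)) (d.e.getD 2 (.cst 0 0)) (d.e.getD 3 (.cst 0 0))),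
    .word 2 1 2 (d.c.getD 0 .gram),
    .word 2 1 2 (d.c.getD 1 .gram),
    .word 2 1 2 (d.c.getD 14 .gram),
    .word 1 2 5 (TFE 0 1 2 (d.e.getD 0 (.cst 0 0)) (d.e.getD 1 (.cst 0 0)) (d.e.getD 2 (.cst 0 0)) (d.e.getD 3 (.cst 0 0))),
    .word 1 2 5 (d.c.getD 3 .gram),
    .word 2 1 6 (TFE 0 1 2 (d.e.getD 0 (.cst 0 0)) (d.e.getD 1 (.cst 0 0)) (d.e.getD 2 (.cst 0 0)) (d.e.getD 3 (.cst 0 0))),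
    .word 2 1 6 (d.c.getD 3 .gram),
    .word 1 2 2 (TFE 0 1 2 (d.e.getD 0 (.cst 0 0)) (d.e.getD 1 (.cst 0 0)) (d.e.getD 2 (.cst 0 0)) (d.e.getD 3 (.cst 0 0))),
    .word 1 2 2 (d.c.getD 1 .gram),
    .word 1 2 2 (d.c.getD 0 .gram),
    .word 1 2 2 (d.c.getD 14 .gram),
    .word 2 1 5 (TFE 0 1 2 (d.e.getD 0 (.cst 0 0)) (d.e.getD 1 (.cst 0 0)) (d.e.getD 2 (.cst 0 0)) (d.e.getD 3 (.cst 0 0))),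
    .word 2 1 5 (d.c.getD 3 .gram),
    .word 1 2 6 (TFE 0 1 2 (d.e.getD 0 (.cst 0 0)) (d.e.getD 1 (.cst 0 0)) (d.e.getD 2 (.cst 0 0)) (d.e.getD 3 (.cst 0 0))),
    .word 1 2 6 (d.c.getD 3 .gram)]
  is := [.form 0, .comp 0 0, .word 0 1 2 1, .word 0 2 2 2, .comp 1 3, .word 1 2 2 4, .comp 2 5, .word 2 1 2 6, .form 1, .comp 0 0, .form 2, .comp 0 0, .form 3, .word 0 1 2 0, .word 0 1 3 1, .word 0 1 4 2, .word 0 1 5 3, .word 0 1 6 4, .word 0 2 2 5, .word 0 2 3 6, .word 0 2 4 7, .word 0 2 5 8, .word 0 2 6 9, .form 4, .comp 1 0, .word 1 2 2 1, .comp 2 2, .word 2 1 2 3, .form 5, .comp 0 0, .word 0 2 2 1, .word 0 2 3 2, .comp 2 3, .word 2 0 2 4, .word 2 0 3 5, .form 6, .comp 0 0, .word 0 1 2 1, .word 0 1 3 2, .comp 1 3, .word 1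 0 2 4, .word 1 0 3 5, .form 7, .comp 0 0, .comp 1 1, .word 1 0 2 2, .comp 2 3, .form 8, .comp 0 0, .comp 1 1, .comp 2 2, .word 2 0 2 3, .form 9, .comp 0 0, .word 1 0 2 1, .word 1 0 3 2, .word 1 0 4 3, .word 1 0 5 4, .word 1 0 6 5, .word 1 2 2 6, .word 1 2 3 7, .word 1 2 4 8, .word 1 2 5 9, .word 1 2 6 10, .comp 2 11, .form 10, .comp 0 0, .comp 1 1, .word 2 0 2 2, .word 2 0 3 3, .word 2 0 4 4, .word 2 0 5 5, .word 2 0 6 6, .word 2 1 2 7, .word 2 1 3 8, .word 2 1 4 9, .word 2 1 5 10, .word 2 1 6 11, .form 11, .comp 0 0, .word 1 2 2 1, .comp 2 2, .form 12, .comp 0 0, .comp 1 1, .word 2 1 2 2, .form 13, .comp 0 0, .word 1 0 2 1, .comp 2 2, .form 14, .comp 0 0, .comp 1 1, .word 2 0 2 2, .form 15, .form 16, .form 17, .comp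 0 0, .comp 2 1, .form 18, .form 19, .form 20, .comp 0 0, .comp 1 1, .form 21, .form 22, .form 23, .form 24, .comp 0 0, .comp 2 1, .form 25, .comp 0 0, .comp 1 1, .form 26, .form 27, .form 28, .form 29, .form 30, .form 31, .form 32, .form 33, .form 34, .form 35, .form 36, .form 37, .form 38, .form 39, .form 40, .form 41, .form 42, .form 43]
  pks := [130, 129, 128, 127, 126, 125, 124, 123, 122, 121, 120, 119, 118, 117, 116, 112, 111, 107, 106, 105, 104, 103, 102, 101, 100, 99, 98, 97, 96, 95, 94, 93, 92, 91, 90, 89, 88, 87, 86, 85, 84, 83, 82, 81, 80, 79, 78, 77, 76, 75, 66, 65, 64, 63, 62, 61, 52, 51, 50, 49, 48, 47, 46, 45, 44, 43, 42, 41, 40, 39, 38, 37, 36, 35, 34, 33, 32, 31, 30, 29, 28, 27, 26, 25, 24, 23, 22, 21,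 20, 19, 18, 17, 16, 15, 14, 13, 12, 11, 10, 9, 8, 7, 6, 5, 4, 3, 2, 1, 0]
  cn := [⟨0, 1, 0, 0, 1, 4, 8, 17⟩, ⟨0, 1, 0, 0, 2, 4, 10, 17⟩, ⟨0, 1, 0, 0, 3, 4, 12, 17⟩, ⟨0, 1, 0, 0, 16, 4, 73, 17⟩, ⟨0, 1, 0, 0, 21, 4, 82, 17⟩, ⟨0, 1, 0, 0, 3, 15, 12, 72⟩, ⟨0, 1, 0, 0, 16, 15, 73, 72⟩, ⟨0, 1, 0, 0, 21, 15, 82, 72⟩, ⟨1, 2, 3, 2, 0, 11, 4, 58⟩, ⟨1, 2, 3, 2, 4, 11, 18, 58⟩, ⟨1, 2, 4, 2, 0, 11, 7, 58⟩, ⟨1, 2, 4, 2, 4, 11, 21, 58⟩, ⟨0, 1, 0, 0, 28, 5, 93, 22⟩, ⟨2, 0, 2, 2, 28, 8, 93, 45⟩, ⟨0, 1, 0, 0, 29, 5, 94, 22⟩, ⟨0, 2, 2, 2, 29, 0, 94, 3⟩, ⟨2, 0, 2, 2, 29, 14, 94, 71⟩, ⟨0, 1, 0, 0, 30, 5, 95, 22⟩, ⟨0, 2, 2, 2, 30, 0, 95, 3⟩, ⟨2, 0, 2, 2, 30, 8, 95, 45⟩, ⟨0, 1, 0, 0, 31, 5, 96, 22⟩, ⟨0, 2, 2, 2, 31, 0, 96, 3⟩, ⟨2, 0, 2, 2,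 31, 8, 96, 45⟩, ⟨0, 1, 0, 0, 32, 5, 97, 22⟩, ⟨0, 2, 2, 2, 32, 0, 97, 3⟩, ⟨2, 0, 2, 2, 32, 8, 97, 45⟩, ⟨0, 1, 0, 0, 33, 5, 98, 22⟩, ⟨0, 2, 2, 2, 33, 0, 98, 3⟩, ⟨2, 0, 2, 2, 33, 8, 98, 45⟩, ⟨0, 1, 0, 0, 34, 5, 99, 22⟩, ⟨0, 2, 2, 2, 34, 0, 99, 3⟩, ⟨2, 0, 2, 2, 34, 8, 99, 45⟩, ⟨0, 1, 0, 0, 35, 5, 100, 22⟩, ⟨0, 2, 2, 2, 35, 0, 100, 3⟩, ⟨2, 0, 2, 2, 35, 8, 100, 45⟩, ⟨0, 1, 0, 0, 11, 5, 56, 22⟩, ⟨0, 2, 2, 1, 11, 0, 59, 1⟩, ⟨2, 0, 2, 1, 11, 8, 57, 44⟩, ⟨0, 1, 0, 0, 13, 5, 64, 22⟩, ⟨0, 2, 2, 1, 13, 2, 67, 11⟩, ⟨2, 0, 2, 1, 13, 8, 65, 44⟩, ⟨0, 1, 0, 0, 7, 5, 36, 22⟩, ⟨0, 2, 2, 1, 7, 2, 40, 11⟩, ⟨2, 0, 2, 1, 7, 8, 37, 44⟩, ⟨0, 1, 0, 0, 9, 5, 46, 22⟩, ⟨0, 2, 2, 1, 9, 2, 50, 11⟩, ⟨2, 0, 2, 1, 9, 8, 47, 44⟩, ⟨0, 1, 0, 0, 17, 5, 74,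 22⟩, ⟨0, 2, 2, 1, 17, 2, 76, 11⟩, ⟨2, 0, 2, 1, 17, 8, 75, 44⟩, ⟨0, 1, 0, 0, 24, 5, 85, 22⟩, ⟨0, 2, 2, 1, 24, 0, 87, 1⟩, ⟨2, 0, 2, 1, 24, 8, 86, 44⟩, ⟨0, 2, 3, 2, 5, 3, 23, 15⟩, ⟨2, 0, 3, 2, 5, 10, 26, 54⟩, ⟨0, 2, 4, 2, 5, 3, 27, 15⟩, ⟨2, 0, 4, 2, 5, 10, 24, 54⟩, ⟨0, 2, 5, 3, 5, 3, 24, 16⟩, ⟨2, 0, 5, 3, 5, 10, 27, 55⟩, ⟨0, 2, 6, 3, 5, 3, 28, 16⟩, ⟨2, 0, 6, 3, 5, 10, 25, 55⟩, ⟨2, 1, 3, 2, 0, 12, 6, 63⟩, ⟨2, 1, 3, 2, 4, 12, 20, 63⟩, ⟨2, 1, 4, 2, 0, 12, 5, 63⟩, ⟨2, 1, 4, 2, 4, 12, 19, 63⟩, ⟨0, 1, 0, 0, 36, 6, 101, 29⟩, ⟨1, 0, 2, 2, 36, 7, 101, 39⟩, ⟨0, 1, 0, 0, 37, 6, 102, 29⟩, ⟨0, 1, 2, 2, 37, 0, 102, 2⟩, ⟨1, 0, 2, 2, 37, 13, 102, 66⟩, ⟨0, 1, 0, 0, 38, 6, 103, 29⟩, ⟨0, 1, 2, 2, 38, 0, 103, 2⟩, ⟨1, 0, 2, 2, 38, 7, 103, 39⟩,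 ⟨0, 1, 0, 0, 39, 6, 104, 29⟩, ⟨0, 1, 2, 2, 39, 0, 104, 2⟩, ⟨1, 0, 2, 2, 39, 7, 104, 39⟩, ⟨0, 1, 0, 0, 40, 6, 105, 29⟩, ⟨0, 1, 2, 2, 40, 0, 105, 2⟩, ⟨1, 0, 2, 2, 40, 7, 105, 39⟩, ⟨0, 1, 0, 0, 41, 6, 106, 29⟩, ⟨0, 1, 2, 2, 41, 0, 106, 2⟩, ⟨1, 0, 2, 2, 41, 7, 106, 39⟩, ⟨0, 1, 0, 0, 42, 6, 107, 29⟩, ⟨0, 1, 2, 2, 42, 0, 107, 2⟩, ⟨1, 0, 2, 2, 42, 7, 107, 39⟩, ⟨0, 1, 0, 0, 43, 6, 108, 29⟩, ⟨0, 1, 2, 2, 43, 0, 108, 2⟩, ⟨1, 0, 2, 2, 43, 7, 108, 39⟩, ⟨0, 1, 0, 0, 12, 6, 60, 29⟩, ⟨0, 1, 2, 1, 12, 0, 62, 1⟩, ⟨1, 0, 2, 1, 12, 7, 61, 38⟩, ⟨0, 1, 0, 0, 14, 6, 68, 29⟩, ⟨0, 1, 2, 1, 14, 1, 70, 9⟩, ⟨1, 0, 2, 1, 14, 7, 69, 38⟩, ⟨0, 1, 0, 0, 8, 6, 41, 29⟩, ⟨0, 1, 2, 1, 8, 1, 43, 9⟩, ⟨1, 0, 2, 1, 8, 7, 42, 38⟩, ⟨0, 1, 0, 0, 10, 6, 51, 29⟩,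 ⟨0, 1, 2, 1, 10, 1, 53, 9⟩, ⟨1, 0, 2, 1, 10, 7, 52, 38⟩, ⟨0, 1, 0, 0, 20, 6, 79, 29⟩, ⟨0, 1, 2, 1, 20, 1, 81, 9⟩, ⟨1, 0, 2, 1, 20, 7, 80, 38⟩, ⟨0, 1, 0, 0, 25, 6, 88, 29⟩, ⟨0, 1, 2, 1, 25, 0, 90, 1⟩, ⟨1, 0, 2, 1, 25, 7, 89, 38⟩, ⟨0, 1, 3, 2, 6, 3, 30, 13⟩, ⟨1, 0, 3, 2, 6, 9, 33, 48⟩, ⟨0, 1, 4, 2, 6, 3, 34, 13⟩, ⟨1, 0, 4, 2, 6, 9, 31, 48⟩, ⟨0, 1, 5, 3, 6, 3, 31, 14⟩, ⟨1, 0, 5, 3, 6, 9, 34, 49⟩, ⟨0, 1, 6, 3, 6, 3, 35, 14⟩, ⟨1, 0, 6, 3, 6, 9, 32, 49⟩, ⟨0, 1, 0, 0, 6, 18, 29, 77⟩, ⟨0, 1, 0, 0, 5, 22, 22, 83⟩, ⟨0, 1, 0, 0, 0, 26, 0, 91⟩, ⟨0, 1, 0, 0, 4, 26, 17, 91⟩, ⟨0, 1, 0, 0, 6, 19, 29, 78⟩, ⟨0, 1, 0, 0, 5, 23, 22, 84⟩, ⟨0, 1, 0, 0, 0, 27, 0, 92⟩, ⟨0, 1, 0, 0, 4, 27, 17, 92⟩]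
  pp := [⟨0, 1, 1, 0, 129⟩, ⟨1, 2, 1, 7, 86⟩, ⟨2, 0, 1, 8, 80⟩, ⟨0, 1, 0, 18, 31⟩, ⟨2, 0, 0, 22, 25⟩, ⟨1, 2, 0, 26, 17⟩, ⟨0, 1, 0, 19, 30⟩, ⟨2, 0, 0, 23, 24⟩, ⟨1, 2, 0, 27, 16⟩, ⟨1, 2, 2, 9, 71⟩, ⟨1, 2, 3, 9, 70⟩, ⟨1, 2, 4, 9, 69⟩, ⟨1, 2, 5, 9, 68⟩, ⟨1, 2, 6, 9, 67⟩, ⟨0, 1, 2, 0, 128⟩, ⟨1, 0, 2, 7, 85⟩, ⟨0, 1, 3, 3, 116⟩, ⟨1, 0, 3, 9, 75⟩, ⟨0, 1, 4, 3, 115⟩, ⟨1, 0, 4, 9, 74⟩, ⟨0, 1, 5, 3, 114⟩, ⟨1, 0, 5, 9, 73⟩, ⟨0, 1, 6, 3, 113⟩, ⟨1, 0, 6, 9, 72⟩, ⟨2, 1, 2, 10, 57⟩, ⟨2, 1, 3, 10, 56⟩, ⟨2, 1, 4, 10, 55⟩, ⟨2, 1, 5, 10, 54⟩, ⟨2, 1, 6, 10, 53⟩, ⟨0, 2, 2, 0, 127⟩, ⟨2, 0, 2, 8, 79⟩, ⟨0, 2, 3, 3, 111⟩, ⟨2, 0, 3, 10, 61⟩, ⟨0, 2, 4, 3, 110⟩, ⟨2, 0, 4, 10, 60⟩, ⟨0, 2, 5, 3, 109⟩, ⟨2, 0, 5, 10, 59⟩, ⟨0, 2, 6, 3, 108⟩, ⟨2, 0, 6,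 10, 58⟩]
  pn := [⟨0, 1, 0, 0, 130⟩, ⟨0, 1, 0, 1, 122⟩, ⟨0, 1, 0, 2, 120⟩, ⟨0, 1, 0, 3, 118⟩, ⟨0, 1, 0, 16, 35⟩, ⟨0, 1, 0, 21, 26⟩, ⟨0, 1, 0, 28, 15⟩, ⟨0, 1, 0, 29, 14⟩, ⟨0, 1, 0, 30, 13⟩, ⟨0, 1, 0, 31, 12⟩, ⟨0, 1, 0, 32, 11⟩, ⟨0, 1, 0, 33, 10⟩, ⟨0, 1, 0, 34, 9⟩, ⟨0, 1, 0, 35, 8⟩, ⟨0, 1, 0, 11, 52⟩, ⟨0, 1, 0, 13, 44⟩, ⟨0, 1, 0, 7, 88⟩, ⟨0, 1, 0, 9, 78⟩, ⟨0, 1, 0, 17, 34⟩, ⟨0, 1, 0, 24, 23⟩, ⟨0, 1, 0, 36, 7⟩, ⟨0, 1, 0, 37, 6⟩, ⟨0, 1, 0, 38, 5⟩, ⟨0, 1, 0, 39, 4⟩, ⟨0, 1, 0, 40, 3⟩, ⟨0, 1, 0, 41, 2⟩, ⟨0, 1, 0, 42, 1⟩, ⟨0, 1, 0, 43, 0⟩, ⟨0, 1, 0, 12, 48⟩, ⟨0, 1, 0, 14, 40⟩, ⟨0, 1, 0, 8, 83⟩, ⟨0, 1, 0, 10, 65⟩, ⟨0, 1, 0, 20, 29⟩, ⟨0, 1, 0, 25, 20⟩]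
  st := [(0, 0), (1, 0), (2, 0), (3, 0), (16, 0), (21, 0), (28, 1), (29, 1), (30, 1), (31, 1), (32, 1), (33, 1), (34, 1), (35, 1), (11, 1), (13, 1), (7, 1), (9, 1), (17, 1), (24, 1), (36, 2), (37, 2), (38, 2), (39, 2), (40, 2), (41, 2), (42, 2), (43, 2), (12, 2), (14, 2), (8, 2), (10, 2), (20, 2), (25, 2)]
  sk d := [.img 1 2 2 0 28,
    .img 1 2 2 1 29,
    .img 1 2 2 2 30,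
    .img 1 2 2 15 31,
    .img 1 2 5 0 32,
    .img 1 2 5 4 33,
    .img 1 2 6 0 34,
    .img 1 2 6 4 35,
    .img 2 1 2 0 36,
    .img 2 1 2 2 37,
    .img 2 1 2 1 38,
    .img 2 1 2 15 39,
    .img 2 1 5 0 40,
    .img 2 1 5 4 41,
    .img 2 1 6 0 42,
    .img 2 1 6 4 43,
    .bT true 0 1 2 28 0 ⟨(d.e.getD 0 (.cst 0 0)), (d.e.getD 1 (.cst 0 0)), (d.e.getD 2 (.cst 0 0)), (d.e.getD 3 (.cst 0 0))⟩ (d.e.getD 4 (.cst 0 0)),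
    .bT false 0 1 2 36 0 ⟨(d.e.getD 0 (.cst 0 0)), (d.e.getD 1 (.cst 0 0)), (d.e.getD 2 (.cst 0 0)), (d.e.getD 3 (.cst 0 0))⟩ (d.e.getD 5 (.cst 0 0))]
  sf := [⟨1, 2, 2, some 0, 28⟩, ⟨1, 2, 2, some 1, 29⟩, ⟨1, 2, 2, some 2, 30⟩, ⟨1, 2, 2, some 15, 31⟩, ⟨1, 2, 5, some 0, 32⟩, ⟨1, 2, 5, some 4, 33⟩, ⟨1, 2, 6, some 0, 34⟩, ⟨1, 2, 6, some 4, 35⟩, ⟨2, 1, 2, some 0, 36⟩, ⟨2, 1, 2, some 2, 37⟩, ⟨2, 1, 2, some 1, 38⟩, ⟨2, 1, 2, some 15, 39⟩, ⟨2, 1, 5, some 0, 40⟩, ⟨2, 1, 5, some 4, 41⟩, ⟨2, 1, 6, some 0, 42⟩, ⟨2, 1, 6, some 4, 43⟩, ⟨0, 2, 2, some 28, 0⟩, ⟨0, 1, 2, some 36, 0⟩]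
  vd d := fun i j => match i, j with
    | 0, 1 => .sym false (d.f.getD 0 (.cst 0 0)) 2 16 18 19
    | 0, 2 => .sym true (d.f.getD 1 (.cst 0 0)) 2 21 22 23
    | 1, 0 => .sym true (d.f.getD 0 (.cst 0 0)) 2 17 18 19
    | 1, 2 => .sym false (d.f.getD 2 (.cst 0 0)) 2 24 26 27
    | 2, 0 => .sym false (d.f.getD 1 (.cst 0 0)) 2 20 22 23
    | 2, 1 => .sym true (d.f.getD 2 (.cst 0 0)) 2 25 26 27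
    | _, _ => .small 0 0
  vx := fun i j => match i, j with
    | 0, 1 => .big 7 16 18 19
    | 0, 2 => .big 7 21 23 22
    | 1, 0 => .big 7 17 19 18
    | 1, 2 => .big 7 24 26 27
    | 2, 0 => .big 7 20 22 23
    | 2, 1 => .big 7 25 27 26
    | _, _ => .small 0 0
  lb := fun _ _ => 0

theorem TAV7_ok (K : ℕ → ℕ → ℕ → Prop) : TAV7.OK K where
  ok := Sys.ok_of (by decide +kernel)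
  stt := by decide +kernel
  vx d i j := by fin_cases i <;> fin_cases j <;> rfl
  vd d i j hij := by
    fin_cases i <;> fin_cases j <;> first | exact absurd rfl hij | exact ⟨rfl, rfl, rfl⟩ | exact trivial
  sf d := rfl
  sk d s hs := by
    rcases List.mem_cons.1 hs with rfl | hs
    · exact Or.inl rfl
    rcases List.mem_cons.1 hs with rfl | hs
    · exact Or.inl rfl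
    rcases List.mem_cons.1 hs with rfl | hs
    · exact Or.inl rfl
    rcases List.mem_cons.1 hs with rfl | hs
    · exact Or.inl rfl
    rcases List.mem_cons.1 hs with rfl | hs
    · exact Or.inl rfl
    rcases List.mem_cons.1 hs with rfl | hs
    · exact Or.inl rfl
    rcases List.mem_cons.1 hs with rfl | hs
    · exact Or.inl rfl
    rcases List.mem_cons.1 hs with rfl | hs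
    · exact Or.inl rfl
    rcases List.mem_cons.1 hs with rfl | hs
    · exact Or.inl rfl
    rcases List.mem_cons.1 hs with rfl | hs
    · exact Or.inl rfl
    rcases List.mem_cons.1 hs with rfl | hs
    · exact Or.inl rfl
    rcases List.mem_cons.1 hs with rfl | hs
    · exact Or.inl rfl
    rcases List.mem_cons.1 hs with rfl | hs
    · exact Or.inl rfl
    rcases List.mem_cons.1 hs with rfl | hs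
    · exact Or.inl rfl
    rcases List.mem_cons.1 hs with rfl | hs
    · exact Or.inl rfl
    rcases List.mem_cons.1 hs with rfl | hs
    · exact Or.inl rfl
    rcases List.mem_cons.1 hs with rfl | hs
    · exact ⟨by decide, by decide, by decide, rfl, Or.inl rfl⟩
    rcases List.mem_cons.1 hs with rfl | hs
    · exact ⟨by decide, by decide, by decide, rfl, Or.inl rfl⟩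
    exact absurd hs List.not_mem_nil
  cl d p q r hp hq hr hK i j hij := by
    refine ⟨Nat.zero_le _, fun m E h => ?_⟩
    fin_cases i <;> fin_cases j <;> first
      | exact absurd rfl hij
      | exact VD.noConfusion h

end Pool.Agent.Work.MP_88b7aa_gt.Kc
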