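import Pool.Agent.Work.MP_88b7aa_gt.Kc.Cel
import Pool.Agent.Work.MP_88b7aa_gt.PQ.SysQ

/-!
# The template for (10, 10, 10) near the end of the interval
-/

set_option autoImplicit false

namespace Pool.Agent.Work.MP_88b7aa_gt.Kc

open Pool.Agent.Work.MP_88b7aa_gt.CH
open Pool.Agent.Work.MP_88b7aa_gt.PQ
open ComplexConjugate Complex Matrix

/-- The template `TT10`. -/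
def TT10 : Tm where
  fes d := [CFE 0 1 2 ⟨(d.e.getD 1 (.cst 0 0)), (d.e.getD 2 (.cst 0 0)), (d.e.getD 3 (.cst 0 0)), (d.e.getD 4 (.cst 0 0)), (d.e.getD 5 (.cst 0 0))⟩ (d.e.getD 0 (.cst 0 0)) (d.e.getD 6 (.cst 0 0)),
    CFE 0 2 1 ⟨(d.e.getD 1 (.cst 0 0)), (d.e.getD 2 (.cst 0 0)), (d.e.getD 3 (.cst 0 0)), (.cj (d.e.getD 4 (.cst 0 0))), (d.e.getD 5 (.cst 0 0))⟩ (d.e.getD 0 (.cst 0 0)) (d.e.getD 6 (.cst 0 0)),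
    CFE 1 2 0 ⟨(d.e.getD 1 (.cst 0 0)), (d.e.getD 2 (.cst 0 0)), (d.e.getD 3 (.cst 0 0)), (d.e.getD 4 (.cst 0 0)), (d.e.getD 5 (.cst 0 0))⟩ (d.e.getD 0 (.cst 0 0)) (d.e.getD 6 (.cst 0 0)),
    CFE 1 0 2 ⟨(d.e.getD 1 (.cst 0 0)), (d.e.getD 2 (.cst 0 0)), (d.e.getD 3 (.cst 0 0)), (.cj (d.e.getD 4 (.cst 0 0))), (d.e.getD 5 (.cst 0 0))⟩ (d.e.getD 0 (.cst 0 0)) (d.e.getD 6 (.cst 0 0)),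
    CFE 2 0 1 ⟨(d.e.getD 1 (.cst 0 0)), (d.e.getD 2 (.cst 0 0)), (d.e.getD 3 (.cst 0 0)), (d.e.getD 4 (.cst 0 0)), (d.e.getD 5 (.cst 0 0))⟩ (d.e.getD 0 (.cst 0 0)) (d.e.getD 6 (.cst 0 0)),
    CFE 2 1 0 ⟨(d.e.getD 1 (.cst 0 0)), (d.e.getD 2 (.cst 0 0)), (d.e.getD 3 (.cst 0 0)), (.cj (d.e.getD 4 (.cst 0 0))), (d.e.getD 5 (.cst 0 0))⟩ (d.e.getD 0 (.cst 0 0)) (d.e.getD 6 (.cst 0 0)),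
    d.c.getD 0 .gram,
    d.c.getD 1 .gram,
    d.c.getD 2 .gram]
  is := [.form 0, .comp 0 0, .word 0 1 2 1, .comp 1 2, .word 1 2 2 3, .word 1 2 3 4, .word 1 2 4 5, .word 1 2 10 6, .comp 2 7, .word 2 1 2 8, .word 2 1 3 9, .word 2 1 4 10, .word 2 1 10 11, .form 1, .comp 0 0, .word 0 2 2 1, .comp 1 2, .word 1 2 2 3, .word 1 2 3 4, .word 1 2 4 5, .word 1 2 10 6, .comp 2 7, .word 2 1 2 8, .word 2 1 3 9, .word 2 1 4 10, .word 2 1 10 11, .form 2, .comp 0 0, .word 0 2 2 1, .word 0 2 3 2, .word 0 2 4 3, .word 0 2 10 4, .comp 1 5, .word 1 2 2 6, .comp 2 7, .word 2 0 2 8, .word 2 0 3 9, .word 2 0 4 10, .word 2 0 10 11, .form 3, .comp 0 0, .word 0 2 2 1, .word 0 2 3 2, .word 0 2 4 3, .word 0 2 10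 4, .comp 1 5, .word 1 0 2 6, .comp 2 7, .word 2 0 2 8, .word 2 0 3 9, .word 2 0 4 10, .word 2 0 10 11, .form 4, .comp 0 0, .word 0 1 2 1, .word 0 1 3 2, .word 0 1 4 3, .word 0 1 10 4, .comp 1 5, .word 1 0 2 6, .word 1 0 3 7, .word 1 0 4 8, .word 1 0 10 9, .comp 2 10, .word 2 0 2 11, .form 5, .comp 0 0, .word 0 1 2 1, .word 0 1 3 2, .word 0 1 4 3, .word 0 1 10 4, .comp 1 5, .word 1 0 2 6, .word 1 0 3 7, .word 1 0 4 8, .word 1 0 10 9, .comp 2 10, .word 2 1 2 11, .form 6, .word 0 1 2 0, .word 0 1 3 1, .word 0 1 4 2, .word 0 1 5 3, .word 0 1 6 4, .word 0 1 7 5, .word 0 1 8 6, .word 0 1 9 7, .word 0 1 10 8, .word 0 2 2 9, .word 0 2 3 10, .word 0 2 4 11, .word 0 2 5 12, .word 0 2 6 13, .word 0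 2 7 14, .word 0 2 8 15, .word 0 2 9 16, .word 0 2 10 17, .comp 1 18, .word 1 2 2 19, .word 1 2 3 20, .word 1 2 4 21, .word 1 2 10 22, .comp 2 23, .word 2 1 2 24, .word 2 1 3 25, .word 2 1 4 26, .word 2 1 10 27, .form 7, .comp 0 0, .word 0 2 2 1, .word 0 2 3 2, .word 0 2 4 3, .word 0 2 10 4, .word 1 0 2 5, .word 1 0 3 6, .word 1 0 4 7, .word 1 0 5 8, .word 1 0 6 9, .word 1 0 7 10, .word 1 0 8 11, .word 1 0 9 12, .word 1 0 10 13, .word 1 2 2 14, .word 1 2 3 15, .word 1 2 4 16, .word 1 2 5 17, .word 1 2 6 18, .word 1 2 7 19, .word 1 2 8 20, .word 1 2 9 21, .word 1 2 10 22, .comp 2 23, .word 2 0 2 24, .word 2 0 3 25, .word 2 0 4 26, .word 2 0 10 27, .form 8, .comp 0 0, .word 0 1 2 1, .word 0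 1 3 2, .word 0 1 4 3, .word 0 1 10 4, .comp 1 5, .word 1 0 2 6, .word 1 0 3 7, .word 1 0 4 8, .word 1 0 10 9, .word 2 0 2 10, .word 2 0 3 11, .word 2 0 4 12, .word 2 0 5 13, .word 2 0 6 14, .word 2 0 7 15, .word 2 0 8 16, .word 2 0 9 17, .word 2 0 10 18, .word 2 1 2 19, .word 2 1 3 20, .word 2 1 4 21, .word 2 1 5 22, .word 2 1 6 23, .word 2 1 7 24, .word 2 1 8 25, .word 2 1 9 26, .word 2 1 10 27]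
  pks := [163, 161, 160, 159, 158, 156, 155, 154, 153, 150, 148, 147, 146, 145, 143, 142, 141, 140, 137, 136, 135, 134, 132, 130, 129, 128, 127, 124, 123, 122, 121, 119, 117, 116, 115, 114, 111, 110, 109, 108, 106, 105, 104, 103, 101, 98, 97, 96, 95, 93, 92, 91, 90, 88, 85, 84, 83, 82, 76, 75, 74, 73, 67, 66, 65, 64, 62, 61, 60, 59, 56, 55, 54, 53, 51, 50, 49, 48, 42, 41, 40, 39, 33, 32, 31, 30, 27, 26, 25, 24, 22, 21, 20, 19, 17, 16, 15, 14, 8, 7, 6, 5]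
  cn := [⟨0, 1, 2, 1, 4, 0, 40, 0⟩, ⟨0, 1, 2, 1, 8, 0, 90, 0⟩, ⟨0, 1, 3, 2, 4, 6, 36, 54⟩, ⟨0, 1, 3, 2, 5, 6, 45, 54⟩, ⟨0, 1, 3, 2, 8, 6, 86, 54⟩, ⟨0, 1, 4, 2, 4, 6, 41, 54⟩, ⟨0, 1, 4, 2, 5, 6, 50, 54⟩, ⟨0, 1, 4, 2, 8, 6, 91, 54⟩, ⟨0, 1, 5, 3, 4, 6, 37, 55⟩, ⟨0, 1, 5, 3, 5, 6, 46, 55⟩, ⟨0, 1, 5, 3, 8, 6, 87, 55⟩, ⟨0, 1, 6, 3, 4, 6, 42, 55⟩, ⟨0, 1, 6, 3, 5, 6, 51, 55⟩, ⟨0, 1, 6, 3, 8, 6, 92, 55⟩, ⟨0, 1, 7, 4, 4, 6, 38, 56⟩, ⟨0, 1, 7, 4, 5, 6, 47, 56⟩, ⟨0, 1, 7, 4, 8, 6, 88, 56⟩, ⟨0, 1, 8, 4, 4, 6, 43, 56⟩, ⟨0, 1, 8, 4, 5, 6, 52, 56⟩, ⟨0, 1, 8, 4, 8, 6, 93, 56⟩, ⟨0, 1, 9, 5, 4, 6, 39, 57⟩, ⟨0, 1, 9, 5, 5, 6, 48, 57⟩, ⟨0, 1, 9, 5, 8, 6, 89, 57⟩, ⟨0, 2, 2, 1, 3, 1, 32, 9⟩, ⟨0, 2, 2, 1, 7, 1,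 82, 9⟩, ⟨0, 2, 3, 2, 3, 6, 27, 58⟩, ⟨0, 2, 3, 2, 2, 6, 18, 58⟩, ⟨0, 2, 3, 2, 7, 6, 70, 58⟩, ⟨0, 2, 4, 2, 3, 6, 33, 58⟩, ⟨0, 2, 4, 2, 2, 6, 24, 58⟩, ⟨0, 2, 4, 2, 7, 6, 83, 58⟩, ⟨0, 2, 5, 3, 3, 6, 28, 59⟩, ⟨0, 2, 5, 3, 2, 6, 19, 59⟩, ⟨0, 2, 5, 3, 7, 6, 71, 59⟩, ⟨0, 2, 6, 3, 3, 6, 34, 59⟩, ⟨0, 2, 6, 3, 2, 6, 25, 59⟩, ⟨0, 2, 6, 3, 7, 6, 84, 59⟩, ⟨0, 2, 7, 4, 3, 6, 29, 60⟩, ⟨0, 2, 7, 4, 2, 6, 20, 60⟩, ⟨0, 2, 7, 4, 7, 6, 72, 60⟩, ⟨0, 2, 8, 4, 3, 6, 35, 60⟩, ⟨0, 2, 8, 4, 2, 6, 26, 60⟩, ⟨0, 2, 8, 4, 7, 6, 85, 60⟩, ⟨0, 2, 9, 5, 3, 6, 30, 61⟩, ⟨0, 2, 9, 5, 2, 6, 21, 61⟩, ⟨0, 2, 9, 5, 7, 6, 73, 61⟩, ⟨1, 2, 2, 1, 0, 2, 5, 22⟩, ⟨1, 2, 2, 1, 6, 2, 66, 22⟩, ⟨1, 2, 3, 2, 0, 7, 1, 78⟩, ⟨1, 2, 3, 2, 1, 7,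 10, 78⟩, ⟨1, 2, 3, 2, 6, 7, 62, 78⟩, ⟨1, 2, 4, 2, 0, 7, 6, 78⟩, ⟨1, 2, 4, 2, 1, 7, 15, 78⟩, ⟨1, 2, 4, 2, 6, 7, 67, 78⟩, ⟨1, 2, 5, 3, 0, 7, 2, 79⟩, ⟨1, 2, 5, 3, 1, 7, 11, 79⟩, ⟨1, 2, 5, 3, 6, 7, 63, 79⟩, ⟨1, 2, 6, 3, 0, 7, 7, 79⟩, ⟨1, 2, 6, 3, 1, 7, 16, 79⟩, ⟨1, 2, 6, 3, 6, 7, 68, 79⟩, ⟨1, 2, 7, 4, 0, 7, 3, 80⟩, ⟨1, 2, 7, 4, 1, 7, 12, 80⟩, ⟨1, 2, 7, 4, 6, 7, 64, 80⟩, ⟨1, 2, 8, 4, 0, 7, 8, 80⟩, ⟨1, 2, 8, 4, 1, 7, 17, 80⟩, ⟨1, 2, 8, 4, 6, 7, 69, 80⟩, ⟨1, 2, 9, 5, 0, 7, 4, 81⟩, ⟨1, 2, 9, 5, 1, 7, 13, 81⟩, ⟨1, 2, 9, 5, 6, 7, 65, 81⟩, ⟨1, 0, 2, 1, 5, 3, 45, 31⟩, ⟨1, 0, 2, 1, 8, 3, 86, 31⟩, ⟨1, 0, 3, 2, 5, 7, 49, 74⟩, ⟨1, 0, 3, 2, 4, 7, 40, 74⟩, ⟨1, 0, 3, 2, 8, 7, 90, 74⟩, ⟨1, 0, 4, 2, 5, 7, 46,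 74⟩, ⟨1, 0, 4, 2, 4, 7, 37, 74⟩, ⟨1, 0, 4, 2, 8, 7, 87, 74⟩, ⟨1, 0, 5, 3, 5, 7, 50, 75⟩, ⟨1, 0, 5, 3, 4, 7, 41, 75⟩, ⟨1, 0, 5, 3, 8, 7, 91, 75⟩, ⟨1, 0, 6, 3, 5, 7, 47, 75⟩, ⟨1, 0, 6, 3, 4, 7, 38, 75⟩, ⟨1, 0, 6, 3, 8, 7, 88, 75⟩, ⟨1, 0, 7, 4, 5, 7, 51, 76⟩, ⟨1, 0, 7, 4, 4, 7, 42, 76⟩, ⟨1, 0, 7, 4, 8, 7, 92, 76⟩, ⟨1, 0, 8, 4, 5, 7, 48, 76⟩, ⟨1, 0, 8, 4, 4, 7, 39, 76⟩, ⟨1, 0, 8, 4, 8, 7, 89, 76⟩, ⟨1, 0, 9, 5, 5, 7, 52, 77⟩, ⟨1, 0, 9, 5, 4, 7, 43, 77⟩, ⟨1, 0, 9, 5, 8, 7, 93, 77⟩, ⟨2, 0, 2, 1, 2, 4, 18, 44⟩, ⟨2, 0, 2, 1, 7, 4, 70, 44⟩, ⟨2, 0, 3, 2, 2, 8, 23, 94⟩, ⟨2, 0, 3, 2, 3, 8, 32, 94⟩, ⟨2, 0, 3, 2, 7, 8, 82, 94⟩, ⟨2, 0, 4, 2, 2, 8, 19, 94⟩, ⟨2, 0, 4, 2, 3, 8, 28, 94⟩, ⟨2, 0, 4, 2, 7, 8,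 71, 94⟩, ⟨2, 0, 5, 3, 2, 8, 24, 95⟩, ⟨2, 0, 5, 3, 3, 8, 33, 95⟩, ⟨2, 0, 5, 3, 7, 8, 83, 95⟩, ⟨2, 0, 6, 3, 2, 8, 20, 95⟩, ⟨2, 0, 6, 3, 3, 8, 29, 95⟩, ⟨2, 0, 6, 3, 7, 8, 72, 95⟩, ⟨2, 0, 7, 4, 2, 8, 25, 96⟩, ⟨2, 0, 7, 4, 3, 8, 34, 96⟩, ⟨2, 0, 7, 4, 7, 8, 84, 96⟩, ⟨2, 0, 8, 4, 2, 8, 21, 96⟩, ⟨2, 0, 8, 4, 3, 8, 30, 96⟩, ⟨2, 0, 8, 4, 7, 8, 73, 96⟩, ⟨2, 0, 9, 5, 2, 8, 26, 97⟩, ⟨2, 0, 9, 5, 3, 8, 35, 97⟩, ⟨2, 0, 9, 5, 7, 8, 85, 97⟩, ⟨2, 1, 2, 1, 1, 5, 10, 53⟩, ⟨2, 1, 2, 1, 6, 5, 62, 53⟩, ⟨2, 1, 3, 2, 1, 8, 14, 98⟩, ⟨2, 1, 3, 2, 0, 8, 5, 98⟩, ⟨2, 1, 3, 2, 6, 8, 66, 98⟩, ⟨2, 1, 4, 2, 1, 8, 11, 98⟩, ⟨2, 1, 4, 2, 0, 8, 2, 98⟩, ⟨2, 1, 4, 2, 6, 8, 63, 98⟩, ⟨2, 1, 5, 3, 1, 8, 15, 99⟩, ⟨2, 1, 5, 3, 0, 8,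 6, 99⟩, ⟨2, 1, 5, 3, 6, 8, 67, 99⟩, ⟨2, 1, 6, 3, 1, 8, 12, 99⟩, ⟨2, 1, 6, 3, 0, 8, 3, 99⟩, ⟨2, 1, 6, 3, 6, 8, 64, 99⟩, ⟨2, 1, 7, 4, 1, 8, 16, 100⟩, ⟨2, 1, 7, 4, 0, 8, 7, 100⟩, ⟨2, 1, 7, 4, 6, 8, 68, 100⟩, ⟨2, 1, 8, 4, 1, 8, 13, 100⟩, ⟨2, 1, 8, 4, 0, 8, 4, 100⟩, ⟨2, 1, 8, 4, 6, 8, 65, 100⟩, ⟨2, 1, 9, 5, 1, 8, 17, 101⟩, ⟨2, 1, 9, 5, 0, 8, 8, 101⟩, ⟨2, 1, 9, 5, 6, 8, 69, 101⟩]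
  pp := [⟨0, 1, 1, 0, 163⟩, ⟨1, 2, 1, 2, 132⟩, ⟨2, 0, 1, 4, 101⟩, ⟨0, 1, 2, 0, 162⟩, ⟨0, 1, 3, 6, 84⟩, ⟨0, 1, 4, 6, 83⟩, ⟨0, 1, 5, 6, 82⟩, ⟨0, 1, 6, 6, 81⟩, ⟨0, 1, 7, 6, 80⟩, ⟨0, 1, 8, 6, 79⟩, ⟨0, 1, 9, 6, 78⟩, ⟨0, 1, 10, 6, 77⟩, ⟨0, 2, 2, 1, 149⟩, ⟨0, 2, 3, 6, 75⟩, ⟨0, 2, 4, 6, 74⟩, ⟨0, 2, 5, 6, 73⟩, ⟨0, 2, 6, 6, 72⟩, ⟨0, 2, 7, 6, 71⟩, ⟨0, 2, 8, 6, 70⟩, ⟨0, 2, 9, 6, 69⟩, ⟨0, 2, 10, 6, 68⟩, ⟨1, 2, 2, 2, 131⟩, ⟨1, 2, 3, 7, 41⟩, ⟨1, 2, 4, 7, 40⟩, ⟨1, 2, 5, 7, 39⟩, ⟨1, 2, 6, 7, 38⟩, ⟨1, 2, 7, 7, 37⟩, ⟨1, 2, 8, 7, 36⟩, ⟨1, 2, 9, 7, 35⟩, ⟨1, 2, 10, 7, 34⟩, ⟨1, 0, 2, 3, 118⟩, ⟨1, 0, 3, 7, 50⟩, ⟨1, 0, 4, 7, 49⟩, ⟨1, 0, 5, 7, 48⟩, ⟨1, 0, 6, 7, 47⟩, ⟨1, 0, 7, 7, 46⟩, ⟨1, 0, 8, 7, 45⟩, ⟨1, 0, 9, 7,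 44⟩, ⟨1, 0, 10, 7, 43⟩, ⟨2, 0, 2, 4, 100⟩, ⟨2, 0, 3, 8, 16⟩, ⟨2, 0, 4, 8, 15⟩, ⟨2, 0, 5, 8, 14⟩, ⟨2, 0, 6, 8, 13⟩, ⟨2, 0, 7, 8, 12⟩, ⟨2, 0, 8, 8, 11⟩, ⟨2, 0, 9, 8, 10⟩, ⟨2, 0, 10, 8, 9⟩, ⟨2, 1, 2, 5, 87⟩, ⟨2, 1, 3, 8, 7⟩, ⟨2, 1, 4, 8, 6⟩, ⟨2, 1, 5, 8, 5⟩, ⟨2, 1, 6, 8, 4⟩, ⟨2, 1, 7, 8, 3⟩, ⟨2, 1, 8, 8, 2⟩, ⟨2, 1, 9, 8, 1⟩, ⟨2, 1, 10, 8, 0⟩]
  pn := [⟨0, 1, 10, 4, 107⟩, ⟨0, 1, 10, 5, 94⟩, ⟨0, 1, 10, 8, 23⟩, ⟨0, 2, 10, 3, 120⟩, ⟨0, 2, 10, 2, 133⟩, ⟨0, 2, 10, 7, 52⟩, ⟨1, 2, 10, 0, 157⟩, ⟨1, 2, 10, 1, 144⟩, ⟨1, 2, 10, 6, 63⟩, ⟨1, 0, 10, 5, 89⟩, ⟨1, 0, 10, 4, 102⟩, ⟨1, 0, 10, 8, 18⟩, ⟨2, 0, 10, 2, 126⟩, ⟨2, 0, 10, 3, 113⟩, ⟨2, 0, 10, 7, 29⟩, ⟨2, 1, 10, 1, 139⟩, ⟨2, 1, 10, 0, 152⟩, ⟨2, 1, 10, 6,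 58⟩, ⟨0, 1, 0, 0, 164⟩, ⟨0, 1, 0, 1, 151⟩, ⟨0, 1, 0, 6, 86⟩, ⟨0, 1, 0, 2, 138⟩, ⟨0, 1, 0, 3, 125⟩, ⟨0, 1, 0, 7, 57⟩, ⟨0, 1, 0, 4, 112⟩, ⟨0, 1, 0, 5, 99⟩, ⟨0, 1, 0, 8, 28⟩]
  st := [(0, 0), (1, 0), (6, 0), (2, 1), (3, 1), (7, 1), (4, 2), (5, 2), (8, 2)]
  sk d := [.tied 0 1 2 5 0 ⟨(d.e.getD 1 (.cst 0 0)), (d.e.getD 2 (.cst 0 0)), (d.e.getD 3 (.cst 0 0)), (d.e.getD 4 (.cst 0 0)), (d.e.getD 5 (.cst 0 0))⟩ ⟨(d.e.getD 1 (.cst 0 0)), (d.e.getD 2 (.cst 0 0)), (d.e.getD 3 (.cst 0 0)), (.cj (d.e.getD 4 (.cst 0 0))), (d.e.getD 5 (.cst 0 0))⟩ (d.e.getD 0 (.cst 0 0)) (d.e.getD 6 (.cst 0 0)) (d.e.getD 7 (.cst 0 0)) (d.e.getD 8 (.cst 0 0)) (d.e.getD 9 (.cst 0 0)),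
    .tied 0 2 1 2 1 ⟨(d.e.getD 1 (.cst 0 0)), (d.e.getD 2 (.cst 0 0)), (d.e.getD 3 (.cst 0 0)), (.cj (d.e.getD 4 (.cst 0 0))), (d.e.getD 5 (.cst 0 0))⟩ ⟨(d.e.getD 1 (.cst 0 0)), (d.e.getD 2 (.cst 0 0)), (d.e.getD 3 (.cst 0 0)), (d.e.getD 4 (.cst 0 0)), (d.e.getD 5 (.cst 0 0))⟩ (d.e.getD 0 (.cst 0 0)) (d.e.getD 6 (.cst 0 0)) (d.e.getD 7 (.cst 0 0)) (d.e.getD 8 (.cst 0 0)) (d.e.getD 9 (.cst 0 0)),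
    .tied 1 2 0 1 2 ⟨(d.e.getD 1 (.cst 0 0)), (d.e.getD 2 (.cst 0 0)), (d.e.getD 3 (.cst 0 0)), (d.e.getD 4 (.cst 0 0)), (d.e.getD 5 (.cst 0 0))⟩ ⟨(d.e.getD 1 (.cst 0 0)), (d.e.getD 2 (.cst 0 0)), (d.e.getD 3 (.cst 0 0)), (.cj (d.e.getD 4 (.cst 0 0))), (d.e.getD 5 (.cst 0 0))⟩ (d.e.getD 0 (.cst 0 0)) (d.e.getD 6 (.cst 0 0)) (d.e.getD 7 (.cst 0 0)) (d.e.getD 8 (.cst 0 0)) (d.e.getD 9 (.cst 0 0)),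
    .tied 1 0 2 4 3 ⟨(d.e.getD 1 (.cst 0 0)), (d.e.getD 2 (.cst 0 0)), (d.e.getD 3 (.cst 0 0)), (.cj (d.e.getD 4 (.cst 0 0))), (d.e.getD 5 (.cst 0 0))⟩ ⟨(d.e.getD 1 (.cst 0 0)), (d.e.getD 2 (.cst 0 0)), (d.e.getD 3 (.cst 0 0)), (d.e.getD 4 (.cst 0 0)), (d.e.getD 5 (.cst 0 0))⟩ (d.e.getD 0 (.cst 0 0)) (d.e.getD 6 (.cst 0 0)) (d.e.getD 7 (.cst 0 0)) (d.e.getD 8 (.cst 0 0)) (d.e.getD 9 (.cst 0 0)),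
    .tied 2 0 1 3 4 ⟨(d.e.getD 1 (.cst 0 0)), (d.e.getD 2 (.cst 0 0)), (d.e.getD 3 (.cst 0 0)), (d.e.getD 4 (.cst 0 0)), (d.e.getD 5 (.cst 0 0))⟩ ⟨(d.e.getD 1 (.cst 0 0)), (d.e.getD 2 (.cst 0 0)), (d.e.getD 3 (.cst 0 0)), (.cj (d.e.getD 4 (.cst 0 0))), (d.e.getD 5 (.cst 0 0))⟩ (d.e.getD 0 (.cst 0 0)) (d.e.getD 6 (.cst 0 0)) (d.e.getD 7 (.cst 0 0)) (d.e.getD 8 (.cst 0 0)) (d.e.getD 9 (.cst 0 0)),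
    .tied 2 1 0 0 5 ⟨(d.e.getD 1 (.cst 0 0)), (d.e.getD 2 (.cst 0 0)), (d.e.getD 3 (.cst 0 0)), (.cj (d.e.getD 4 (.cst 0 0))), (d.e.getD 5 (.cst 0 0))⟩ ⟨(d.e.getD 1 (.cst 0 0)), (d.e.getD 2 (.cst 0 0)), (d.e.getD 3 (.cst 0 0)), (d.e.getD 4 (.cst 0 0)), (d.e.getD 5 (.cst 0 0))⟩ (d.e.getD 0 (.cst 0 0)) (d.e.getD 6 (.cst 0 0)) (d.e.getD 7 (.cst 0 0)) (d.e.getD 8 (.cst 0 0)) (d.e.getD 9 (.cst 0 0))]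
  sf := [⟨0, 1, 2, some 5, 0⟩, ⟨0, 2, 2, some 2, 1⟩, ⟨1, 2, 2, some 1, 2⟩, ⟨1, 0, 2, some 4, 3⟩, ⟨2, 0, 2, some 3, 4⟩, ⟨2, 1, 2, some 0, 5⟩]
  vd _ := fun i j => match i, j with
    | 0, 1 => .small 10 6
    | 0, 2 => .small 10 6
    | 1, 0 => .small 10 7
    | 1, 2 => .small 10 7
    | 2, 0 => .small 10 8
    | 2, 1 => .small 10 8
    | _, _ => .small 0 0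
  vx := fun i j => match i, j with
    | 0, 1 => .small 10 6
    | 0, 2 => .small 10 6
    | 1, 0 => .small 10 7
    | 1, 2 => .small 10 7
    | 2, 0 => .small 10 8
    | 2, 1 => .small 10 8
    | _, _ => .small 0 0
  lb := fun _ _ => 0

theorem TT10_ok {K : ℕ → ℕ → ℕ → Prop} (hK : ∀ p q r, K p q r → p = 10 ∧ q = 10 ∧ r = 10) : TT10.OK K where
  ok := Sys.ok_of (by decide +kernel)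
  stt := by decide +kernel
  vx d i j := by fin_cases i <;> fin_cases j <;> rfl
  vd d i j hij := by
    fin_cases i <;> fin_cases j <;> first | exact absurd rfl hij | exact trivial
  sf d := rfl
  sk d s hs := by
    rcases List.mem_cons.1 hs with rfl | hs
    · exact ⟨by decide, by decide, by decide, rfl, rfl⟩
    rcases List.mem_cons.1 hs with rfl | hs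
    · exact ⟨by decide, by decide, by decide, rfl, rfl⟩
    rcases List.mem_cons.1 hs with rfl | hs
    · exact ⟨by decide, by decide, by decide, rfl, rfl⟩
    rcases List.mem_cons.1 hs with rfl | hs
    · exact ⟨by decide, by decide, by decide, rfl, rfl⟩
    rcases List.mem_cons.1 hs with rfl | hs
    · exact ⟨by decide, by decide, by decide, rfl, rfl⟩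
    rcases List.mem_cons.1 hs with rfl | hs
    · exact ⟨by decide, by decide, by decide, rfl, rfl⟩
    exact absurd hs List.not_mem_nil
  cl d p q r hp hq hr hK' i j hij := by
    obtain ⟨e1, e2, e3⟩ := hK p q r hK'
    refine ⟨Nat.zero_le _, fun m E h => ?_⟩
    fin_cases i <;> fin_cases j <;> first
      | exact absurd rfl hij
      | exact VD.noConfusion h fun e _ => e1.trans e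
      | exact VD.noConfusion h fun e _ => e2.trans e
      | exact VD.noConfusion h fun e _ => e3.trans e

end Pool.Agent.Work.MP_88b7aa_gt.Kc
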